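import Pool.Agent.Lib.DI.G.SpecL
import Pool.Agent.Lib.MuZ.Tot
import Pool.Agent.Lib.MuZ.QZ

/-!
# Theorem DI, part G: approximation of a square root fixed by the decomposition group
-/

set_option autoImplicit false

open scoped Pointwise

noncomputable section

namespace Pool.Agent.DI.GL

open Pool.Agent.MuZ Pool.Agent.FW Pool.Agent.DI Pool.Agent.DI.G

/-- The subgroup fixing `F` and `r`. -/
private def App_H (F : IntermediateField ℚ Om) (r : Om) : Subgroup Gal(Om/ℚ) where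
  carrier := {h | Fx F h ∧ h r = r}
  mul_mem' := by
    rintro a b ⟨ha, ha'⟩ ⟨hb, hb'⟩
    refine ⟨ha.mul hb, ?_⟩
    rw [AlgEquiv.mul_apply, hb', ha']
  one_mem' := ⟨Fx.one, rfl⟩
  inv_mem' := by
    rintro a ⟨ha, ha'⟩
    refine ⟨ha.inv, ?_⟩
    have h1 : a⁻¹ (a r) = r := by
      rw [← AlgEquiv.mul_apply, inv_mul_cancel, AlgEquiv.one_apply]
    rwa [ha'] at h1

private theorem App_mem {F : IntermediateField ℚ Om} {r : Om} {h : Gal(Om/ℚ)} :
    h ∈ App_H F r ↔ Fx F h ∧ h r = r := Iff.rfl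

private theorem App_closed (F : IntermediateField ℚ Om) (r : Om) :
    IsClosed (App_H F r : Set Gal(Om/ℚ)) := by
  have h1 : (App_H F r : Set Gal(Om/ℚ)) =
      (F.fixingSubgroup : Set Gal(Om/ℚ)) ∩ {h : Gal(Om/ℚ) | h r = r} := by
    ext h
    constructor
    · rintro ⟨ha, hb⟩
      exact ⟨(IntermediateField.mem_fixingSubgroup_iff F h).mpr ha, hb⟩
    · rintro ⟨ha, hb⟩
      exact ⟨(IntermediateField.mem_fixingSubgroup_iff F h).mp ha, hb⟩
  rw [h1]
  exact (InfiniteGalois.fixingSubgroup_isClosed F).inter (QZ.eq_closed' r r)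

theorem tApp : S_App := by
  intro hStb hArch F P hP h2 r hr2 hfix M
  have : P.IsPrime := hP
  by_cases hrF : r ∈ F
  · refine ⟨r, hrF, 0, VP.zero, ?_⟩
    rw [sub_self, mul_zero]
  have hr0 : r ≠ 0 := fun h => hrF (h ▸ F.zero_mem)
  have hneg : r ≠ -r := fun h => hr0 (self_eq_neg.mp h)
  have hpm : ∀ τ : Gal(Om/ℚ), Fx F τ → τ r = r ∨ τ r = -r := by
    intro τ hτ
    have h3 : (τ r) ^ 2 = r ^ 2 := by rw [← map_pow, hτ _ hr2]
    exact sq_eq_sq_iff_eq_or_eq_neg.mp h3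
  obtain ⟨g, hgF, hgr⟩ : ∃ g : Gal(Om/ℚ), Fx F g ∧ g r = -r := by
    by_contra hcon
    refine hrF (mem_of_Fx fun τ hτ => ?_)
    rcases hpm τ hτ with h | h
    · exact h
    · exact absurd ⟨τ, hτ, h⟩ hcon
  have hgi : g⁻¹ r = -r := by
    have h1 : g⁻¹ (g r) = r := by
      rw [← AlgEquiv.mul_apply, inv_mul_cancel, AlgEquiv.one_apply]
    rw [hgr, map_neg] at h1
    rw [← h1, neg_neg, h1]
  -- membership facts
  have m1 : g * g ∈ App_H F r := by
    refine ⟨hgF.mul hgF, ?_⟩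
    rw [AlgEquiv.mul_apply, hgr, map_neg, hgr, neg_neg]
  have m2 : ∀ h ∈ App_H F r, g⁻¹ * h * g ∈ App_H F r := by
    rintro h ⟨ha, hb⟩
    refine ⟨(hgF.inv.mul ha).mul hgF, ?_⟩
    rw [AlgEquiv.mul_apply, AlgEquiv.mul_apply, hgr, map_neg, hb, map_neg, hgi, neg_neg]
  have m3 : ∀ τ : Gal(Om/ℚ), Fx F τ → τ r = -r → g⁻¹ * τ ∈ App_H F r ∧ τ * g ∈ App_H F r := by
    intro τ ha hb
    refine ⟨⟨hgF.inv.mul ha, ?_⟩, ⟨ha.mul hgF, ?_⟩⟩
    · rw [AlgEquiv.mul_apply, hb, map_neg, hgi, neg_neg]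
    · rw [AlgEquiv.mul_apply, hgr, map_neg, hb, neg_neg]
  obtain ⟨t, htH, htP, hgt⟩ : ∃ t : ZZ, (∀ h ∈ App_H F r, h • t = t) ∧ t ∉ P ∧ g • t ∈ P := by
    by_cases hall : ∀ x : ZZ, (∀ h ∈ App_H F r, h • x = x) → (x ∈ P ↔ x ∈ g⁻¹ • P)
    · exfalso
      obtain ⟨h, hh, hgh⟩ := tot_trans (App_H F r) (App_closed F r) P (g⁻¹ • P) hP
        (hP.smul g⁻¹) hall
      have h3 : (g * h) • P = P := by
        rw [mul_smul, ← hgh, smul_inv_smul]
      have h4 : (g * h) r = r := hfix (g * h)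
        (((hStb P hP h2).2.1 (g * h)).2 (MulAction.mem_stabilizer_iff.2 h3)) (hgF.mul hh.1)
      rw [AlgEquiv.mul_apply, hh.2, hgr] at h4
      exact hneg h4.symm
    · rw [not_forall] at hall
      obtain ⟨x, hx⟩ := hall
      rw [Classical.not_imp] at hx
      obtain ⟨hx1, hx2⟩ := hx
      have h3 : x ∈ g⁻¹ • P ↔ g • x ∈ P := Ideal.mem_inv_pointwise_smul_iff
      rw [h3] at hx2
      by_cases hxP : x ∈ P
      · have hgx : g • x ∉ P := fun h => hx2 ⟨fun _ => h, fun _ => hxP⟩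
        refine ⟨g • x, fun h hh => ?_, hgx, ?_⟩
        · have h4 : h * g = g * (g⁻¹ * h * g) := by group
          rw [smul_smul, h4, mul_smul, hx1 _ (m2 h hh)]
        · rw [smul_smul, hx1 _ m1]
          exact hxP
      · refine ⟨x, hx1, hxP, ?_⟩
        by_contra hgx
        exact hx2 ⟨fun h => absurd h hxP, fun h => absurd h hgx⟩
  obtain ⟨a1, a2, a3⟩ := hArch P hP h2
  obtain ⟨K, hK⟩ := a1 r
  have htU : UP P (t : Om) := ⟨VP.coe t, fun h => htP ((MP.coe_iff t).1 h)⟩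
  have hgtM : MP P (g (t : Om)) := by
    rw [← smul_coe]
    exact (MP.coe_iff (g • t)).2 hgt
  obtain ⟨j, hj0, y1, hy1, hj⟩ := a3 (t : Om) htU (M + K)
  obtain ⟨n0, hn0⟩ := a2 (g (t : Om)) hgtM (M + K)
  obtain ⟨e, he⟩ : ∃ e : Om, e = (t : Om) ^ (j * (n0 + 1)) := ⟨_, rfl⟩
  have heH : ∀ h ∈ App_H F r, h e = e := by
    intro h hh
    rw [he, map_pow, ← smul_coe, htH h hh]
  obtain ⟨y2, hy2, hge⟩ : TP P (2 ^ (M + K)) (g e) := by
    rw [he, map_pow]
    refine hn0 _ ?_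
    nlinarith
  obtain ⟨y3, hy3, he1⟩ : ∃ y3 : Om, VP P y3 ∧ e - 1 = 2 ^ (M + K) * y3 := by
    refine ⟨y1 * ∑ i ∈ Finset.range (n0 + 1), ((t : Om) ^ j) ^ i,
      hy1.mul (VP.sum _ _ fun i _ => ((VP.coe t).pow j).pow i), ?_⟩
    rw [← mul_assoc, ← hj, mul_geom_sum, he, pow_mul]
  refine ⟨e * r - g e * r, mem_of_Fx fun τ hτ => ?_, 2 ^ K * r * (y2 - y3),
    hK.mul (hy2.sub hy3), ?_⟩
  · rw [map_sub, map_mul, map_mul]
    rcases hpm τ hτ with h | h
    · have h3 : τ e = e := heH τ ⟨hτ, h⟩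
      have h4 : τ (g e) = g e := by
        have h5 := heH _ (m2 τ ⟨hτ, h⟩)
        have h6 : τ (g e) = g ((g⁻¹ * τ * g) e) := by
          rw [← AlgEquiv.mul_apply, ← AlgEquiv.mul_apply]
          congr 1
          group
        rw [h6, h5]
      rw [h, h3, h4]
    · obtain ⟨m4, m5⟩ := m3 τ hτ h
      have h3 : τ e = g e := by
        have h5 := heH _ m4
        have h6 : τ e = g ((g⁻¹ * τ) e) := by
          rw [← AlgEquiv.mul_apply]
          congr 1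
          group
        rw [h6, h5]
      have h4 : τ (g e) = e := by
        rw [← AlgEquiv.mul_apply]
        exact heH _ m5
      rw [h, h3, h4]
      ring
  · rw [pow_add] at hge he1
    linear_combination (-r) * he1 + r * hge

end Pool.Agent.DI.GL
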