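import Pool.Agent.Lib.DI.G.SpecL

set_option autoImplicit false

/-!
# Theorem DI, part G: `L_(N+1) = L_N + L_N y` (`S_D2`)
-/

open scoped Pointwise

noncomputable section

namespace Pool.Agent.DI.GL

open Pool.Agent.MuZ Pool.Agent.FW Pool.Agent.DI Pool.Agent.DI.G

private lemma D2_half {N : ℕ} {ζ' : Om} (h : IsPrimitiveRoot ζ' (2 ^ (N + 1))) :
    ζ' ^ 2 ^ N = -1 := by
  have h1 : (ζ' ^ 2 ^ N) ^ 2 = 1 := by
    rw [← pow_mul, ← pow_succ]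
    exact h.pow_eq_one
  rcases sq_eq_one_iff.1 h1 with h2 | h2
  · exfalso
    have h3 := h.dvd_of_pow_eq_one _ h2
    have h4 := Nat.le_of_dvd (by positivity) h3
    have h5 : 2 ^ N < 2 ^ (N + 1) := Nat.pow_lt_pow_right (by norm_num) (Nat.lt_succ_self N)
    omega
  · exact h2

theorem tD2 : S_D2 := by
  intro hIu hX0 f P hS N hN ζ' hζ ρ hρ
  have hP : P.IsPrime := hS.prime
  obtain ⟨s, hsI, hs⟩ := hIu P hP hS.two (N + 1) (1 + 2 ^ N) (by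
    have : Even (2 ^ N) := (Nat.even_pow.2 ⟨even_two, by omega⟩)
    exact Odd.add_even odd_one this)
  have hζ0 : ζ' ≠ 0 := hζ.ne_zero (by positivity)
  have hsζ : s ζ' = -ζ' := by
    rw [hs ζ' hζ.pow_eq_one, pow_add, pow_one, D2_half hζ, mul_neg, mul_one]
  have hsL : Fx (Lf f) s := hS.inr s hsI
  have hζ2 : IsPrimitiveRoot (ζ' ^ 2) (2 ^ N) := hζ.pow (by positivity) (by rw [pow_succ, mul_comm])
  have hy0 : ζ' + ζ'⁻¹ ≠ 0 := by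
    obtain ⟨h1, -, -, -, h2⟩ := hX0 P hP hS.two N hN (ζ' ^ 2) hζ2
    intro h0
    apply h1
    rw [← (h2 ζ' rfl).1, h0]
    ring
  have hsy : s (ζ' + ζ'⁻¹) = -(ζ' + ζ'⁻¹) := by
    rw [map_add, map_inv₀, hsζ, inv_neg]
    ring
  have hss : Fx (Ln f (N + 1)) (s * s) := by
    rw [hS.lnx (N + 1) ζ' hζ]
    refine ⟨hsL.mul hsL, Or.inl ?_⟩
    rw [AlgEquiv.mul_apply, hsζ, map_neg, hsζ, neg_neg]
  have hsρ : s ρ ∈ Ln f (N + 1) := hS.lnn (N + 1) s ρ hρ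
  have hsinv : ∀ x : Om, s (s⁻¹ x) = x := fun x => by
    rw [← AlgEquiv.mul_apply, mul_inv_cancel, AlgEquiv.one_apply]
  have hinvs : ∀ x : Om, s⁻¹ (s x) = x := fun x => by
    rw [← AlgEquiv.mul_apply, inv_mul_cancel, AlgEquiv.one_apply]
  have key : ∀ τ : Gal(Om/ℚ), Fx (Ln f N) τ →
      (τ ρ = ρ ∧ τ (s ρ) = s ρ ∧ τ (ζ' + ζ'⁻¹) = ζ' + ζ'⁻¹) ∨
      (τ ρ = s ρ ∧ τ (s ρ) = ρ ∧ τ (ζ' + ζ'⁻¹) = -(ζ' + ζ'⁻¹)) := by
    intro τ hτ
    obtain ⟨hL, hc⟩ := (hS.lnx N (ζ' ^ 2) hζ2 τ).1 hτ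
    have pos : (τ ζ' = ζ' ∨ τ ζ' = ζ'⁻¹) →
        (τ ρ = ρ ∧ τ (s ρ) = s ρ ∧ τ (ζ' + ζ'⁻¹) = ζ' + ζ'⁻¹) := by
      intro h
      have hfx : Fx (Ln f (N + 1)) τ := (hS.lnx (N + 1) ζ' hζ τ).2 ⟨hL, h⟩
      refine ⟨hfx ρ hρ, hfx _ hsρ, ?_⟩
      rw [map_add, map_inv₀]
      rcases h with h | h
      · rw [h]
      · rw [h, inv_inv, add_comm]
    have neg : (τ ζ' = -ζ' ∨ τ ζ' = -ζ'⁻¹) →
        (τ ρ = s ρ ∧ τ (s ρ) = ρ ∧ τ (ζ' + ζ'⁻¹) = -(ζ' + ζ'⁻¹)) := by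
      intro h
      have hfx : Fx (Ln f (N + 1)) (s⁻¹ * τ) := by
        rw [hS.lnx (N + 1) ζ' hζ]
        refine ⟨hsL.inv.mul hL, ?_⟩
        rw [AlgEquiv.mul_apply]
        rcases h with h | h
        · left
          rw [h, ← hsζ, hinvs]
        · right
          rw [h]
          have h1 : s ζ'⁻¹ = -ζ'⁻¹ := by rw [map_inv₀, hsζ, inv_neg]
          rw [← h1, hinvs]
      have e : ∀ x ∈ Ln f (N + 1), τ x = s x := by
        intro x hx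
        have h1 := hfx x hx
        rw [AlgEquiv.mul_apply] at h1
        rw [← hsinv (τ x), h1]
      refine ⟨e ρ hρ, ?_, ?_⟩
      · rw [e _ hsρ, ← AlgEquiv.mul_apply]
        exact hss ρ hρ
      · rw [map_add, map_inv₀]
        rcases h with h | h
        · rw [h, inv_neg]
          ring
        · rw [h, inv_neg, inv_inv]
          ring
    rcases hc with hc | hc
    · rw [map_pow] at hc
      rcases sq_eq_sq_iff_eq_or_eq_neg.1 hc with h | h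
      · exact Or.inl (pos (Or.inl h))
      · exact Or.inr (neg (Or.inl h))
    · rw [map_pow, ← inv_pow] at hc
      rcases sq_eq_sq_iff_eq_or_eq_neg.1 hc with h | h
      · exact Or.inl (pos (Or.inr h))
      · exact Or.inr (neg (Or.inr h))
  refine ⟨(ρ + s ρ) / 2, mem_of_Fx fun τ hτ => ?_, (ρ - s ρ) / (2 * (ζ' + ζ'⁻¹)),
    mem_of_Fx fun τ hτ => ?_, ?_⟩
  · rw [map_div₀, map_add, map_ofNat]
    rcases key τ hτ with ⟨h1, h2, -⟩ | ⟨h1, h2, -⟩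
    · rw [h1, h2]
    · rw [h1, h2, add_comm]
  · rw [map_div₀, map_sub, map_mul, map_ofNat]
    rcases key τ hτ with ⟨h1, h2, h3⟩ | ⟨h1, h2, h3⟩
    · rw [h1, h2, h3]
    · rw [h1, h2, h3, mul_neg, div_neg, ← neg_div, neg_sub]
  · rw [div_mul_eq_mul_div, mul_comm (2 : Om), mul_comm (ρ - s ρ), mul_div_mul_left _ _ hy0]
    ring

end Pool.Agent.DI.GL
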