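import Pool.Agent.Lib.DI.G.SpecL

/-!
# Theorem DI, part G: additivity of `w ↦ s w / w - 1` modulo `4`
-/

set_option autoImplicit false

open scoped Pointwise

noncomputable section

namespace Pool.Agent.DI.GL

open Pool.Agent.MuZ Pool.Agent.FW Pool.Agent.DI Pool.Agent.DI.G

private theorem Dad_add {P : Ideal ZZ} (hP : P.IsPrime) {t x y : Om} (hx : TP P t x)
    (hy : TP P t y) : TP P t (x + y) := by
  have := hP
  obtain ⟨a, ha, rfl⟩ := hx
  obtain ⟨b, hb, rfl⟩ := hy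
  exact ⟨a + b, ha.add hb, by ring⟩

private theorem Dad_zero {P : Ideal ZZ} (hP : P.IsPrime) (t : Om) : TP P t 0 := by
  have := hP
  exact ⟨0, VP.zero, by ring⟩

/-- One step: the product of two elements. -/
private theorem Dad_mul {P : Ideal ZZ} (hP : P.IsPrime) (s : Gal(Om/ℚ)) {w w' a a' : Om}
    (h0 : w ≠ 0) (h0' : w' ≠ 0) (h : TP P 2 (s w / w - 1)) (h' : TP P 2 (s w' / w' - 1))
    (h4 : TP P 4 ((s w / w - 1) - a)) (h4' : TP P 4 ((s w' / w' - 1) - a')) :
    TP P 2 (s (w * w') / (w * w') - 1) ∧ TP P 4 ((s (w * w') / (w * w') - 1) - (a + a')) := by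
  have := hP
  have e : s (w * w') / (w * w') - 1 =
      (s w / w - 1) + (s w' / w' - 1) + (s w / w - 1) * (s w' / w' - 1) := by
    rw [map_mul]
    field_simp
    ring
  obtain ⟨b, hb, hb1⟩ := h
  obtain ⟨b', hb', hb1'⟩ := h'
  obtain ⟨c, hc, hc1⟩ := h4
  obtain ⟨c', hc', hc1'⟩ := h4'
  refine ⟨⟨b + b' + 2 * (b * b'), (hb.add hb').add ((VP.nat 2).mul (hb.mul hb')), ?_⟩,
    ⟨c + c' + b * b', (hc.add hc').add (hb.mul hb'), ?_⟩⟩
  · rw [e, hb1, hb1']
    ring
  · rw [e]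
    have e2 : (s w / w - 1) + (s w' / w' - 1) + (s w / w - 1) * (s w' / w' - 1) - (a + a') =
        ((s w / w - 1) - a) + ((s w' / w' - 1) - a') + (s w / w - 1) * (s w' / w' - 1) := by ring
    rw [e2, hc1, hc1', hb1, hb1']
    ring

private theorem Dad_pow {P : Ideal ZZ} (hP : P.IsPrime) (s : Gal(Om/ℚ)) {w : Om}
    (h0 : w ≠ 0) (h : TP P 2 (s w / w - 1)) (c : ℕ) :
    TP P 2 (s (w ^ c) / w ^ c - 1) ∧ TP P 4 ((s (w ^ c) / w ^ c - 1) - c * (s w / w - 1)) := by
  induction c with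
  | zero =>
    rw [pow_zero, map_one, div_one, sub_self, Nat.cast_zero, zero_mul, sub_zero]
    exact ⟨Dad_zero hP 2, Dad_zero hP 4⟩
  | succ c ih =>
    have h1 := Dad_mul hP s (pow_ne_zero c h0) h0 ih.1 h ih.2
      (show TP P 4 ((s w / w - 1) - (s w / w - 1)) by rw [sub_self]; exact Dad_zero hP 4)
    rw [pow_succ]
    refine ⟨h1.1, ?_⟩
    have e : ((c + 1 : ℕ) : Om) * (s w / w - 1) = c * (s w / w - 1) + (s w / w - 1) := by
      push_cast
      ring
    rw [e]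
    exact h1.2

theorem tDad : S_Dad := by
  classical
  intro P hP _ s D u c hu
  have key : (∏ v ∈ D, u v ^ c v) ≠ 0 ∧
      TP P 2 (s (∏ v ∈ D, u v ^ c v) / (∏ v ∈ D, u v ^ c v) - 1) ∧
      TP P 4 ((s (∏ v ∈ D, u v ^ c v) / (∏ v ∈ D, u v ^ c v) - 1) -
        ∑ v ∈ D, (c v : Om) * (s (u v) / u v - 1)) := by
    induction D using Finset.induction_on with
    | empty =>
      rw [Finset.prod_empty, Finset.sum_empty, map_one, div_one, sub_self, sub_zero]
      exact ⟨one_ne_zero, Dad_zero hP 2, Dad_zero hP 4⟩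
    | insert a D ha ih =>
      have ih' := ih (fun v hv => hu v (Finset.mem_insert_of_mem hv))
      obtain ⟨h0, h2⟩ := hu a (Finset.mem_insert_self a D)
      have h3 := Dad_pow hP s h0 h2 (c a)
      have h4 := Dad_mul hP s (pow_ne_zero (c a) h0) ih'.1 h3.1 ih'.2.1 h3.2 ih'.2.2
      rw [Finset.prod_insert ha, Finset.sum_insert ha]
      exact ⟨mul_ne_zero (pow_ne_zero (c a) h0) ih'.1, h4⟩
  exact key.2.2

end Pool.Agent.DI.GL
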