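import Pool.Agent.Lib.DI.G.SpecL

/-!
# Theorem DI, part G: the local lemma (G8)
-/

set_option autoImplicit false

open scoped Pointwise

noncomputable section

namespace Pool.Agent.DI.GL

open Pool.Agent.MuZ Pool.Agent.FW Pool.Agent.DI Pool.Agent.DI.G

theorem tG8 : S_G8 := by
  intro hCpt hKap hA hB f P hS N hN s hs1 hs2 w hw hwu hd
  have := hS.prime
  have hw0 : w ≠ 0 := hwu.ne_zero
  obtain ⟨m0, hm0⟩ := hCpt f P hS (sqr w) (fun d h => (hKap.1 w (sqr w) d (sqr_sq w)).1 (hd d h))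
  have hm : ∀ d : Gal(Om/ℚ), DL f P m0 d → kap w d = 0 := fun d h =>
    (hKap.1 w (sqr w) d (sqr_sq w)).2 (hm0 m0 le_rfl d h)
  have hne : NeZero (2 ^ N) := ⟨(pow_pos (by norm_num) N).ne'⟩
  have hne' : NeZero ((2 ^ N : ℕ) : Om) := ⟨by
    rw [Nat.cast_ne_zero]
    exact hne.out⟩
  obtain ⟨ζ, hζ⟩ := HasEnoughRootsOfUnity.exists_primitiveRoot Om (2 ^ N)
  obtain ⟨e, b, he, hb, h⟩ := hA f P hS N (by omega) ζ hζ w hw hw0 m0 hm
  exact hB f P hS N hN s hs1 hs2 ζ hζ w hw hwu e b he hb (sqr (w * (e * xx ζ ^ b)))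
    (sqr_sq _) (h _ (sqr_sq _))

end Pool.Agent.DI.GL
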