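import Pool.Agent.Lib.DI.G.SpecL

/-!
# Theorem DI, part G9: passage from `kap` to the sum over `D`
-/

set_option autoImplicit false

open scoped Pointwise

noncomputable section

namespace Pool.Agent.DI.GL

open Pool.Agent.MuZ Pool.Agent.FW Pool.Agent.DI Pool.Agent.DI.G

private theorem G9_add {P : Ideal ZZ} [hP : P.IsPrime] {t x y : Om} (hx : TP P t x) (hy : TP P t y) :
    TP P t (x + y) := by
  obtain ⟨a, ha, rfl⟩ := hx
  obtain ⟨b, hb, rfl⟩ := hy
  exact ⟨a + b, ha.add hb, by ring⟩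

private theorem G9_sub {P : Ideal ZZ} [hP : P.IsPrime] {t x y : Om} (hx : TP P t x) (hy : TP P t y) :
    TP P t (x - y) := by
  obtain ⟨a, ha, rfl⟩ := hx
  obtain ⟨b, hb, rfl⟩ := hy
  exact ⟨a - b, ha.sub hb, by ring⟩

private theorem G9_zero {P : Ideal ZZ} [hP : P.IsPrime] (t : Om) : TP P t 0 :=
  ⟨0, VP.zero, by rw [mul_zero]⟩

private theorem G9_sum {P : Ideal ZZ} [hP : P.IsPrime] {ι : Type*} (t : Om) (S : Finset ι) (F : ι → Om)
    (h : ∀ i ∈ S, TP P t (F i)) : TP P t (∑ i ∈ S, F i) := by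
  classical
  induction S using Finset.induction_on with
  | empty =>
    rw [Finset.sum_empty]
    exact G9_zero t
  | insert a S ha ih =>
    rw [Finset.sum_insert ha]
    exact G9_add (h a (Finset.mem_insert_self a S)) (ih fun i hi => h i (Finset.mem_insert_of_mem hi))

private theorem G9_mul {P : Ideal ZZ} [hP : P.IsPrime] {t x y : Om} (hx : VP P x) (hy : TP P t y) :
    TP P t (x * y) := by
  obtain ⟨b, hb, rfl⟩ := hy
  exact ⟨x * b, hx.mul hb, by ring⟩

private theorem G9_four {P : Ideal ZZ} [hP : P.IsPrime] {x y : Om} (hx : TP P 2 x) (hy : TP P 2 y) :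
    TP P 4 (x * y) := by
  obtain ⟨a, ha, rfl⟩ := hx
  obtain ⟨b, hb, rfl⟩ := hy
  exact ⟨a * b, ha.mul hb, by ring⟩

private theorem G9_div {P : Ideal ZZ} [hP : P.IsPrime] {t x w : Om} (hw : UP P w)
    (h : TP P t (x - w)) : TP P t (x / w - 1) := by
  obtain ⟨y, hy, hxy⟩ := h
  have h0 : w ≠ 0 := hw.ne_zero
  refine ⟨y * w⁻¹, hy.mul (VP.inv hw.1 hw.2), ?_⟩
  have h1 : x / w - 1 = (x - w) * w⁻¹ := by
    field_simp
  rw [h1, hxy]
  ring

/-- The decomposition of a sum over `D`. -/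
private theorem G9_split {n : ℕ} (D : Finset OO) (χ : OO → Om) (b : Fin n → OO) (c : Fin n → OO → ℕ)
    (C : OO → Om) : ∑ v ∈ D, χ v * C v =
      ∑ v ∈ D, (χ v - ∑ i, (c i v : Om) * χ (b i)) * C v +
        ∑ i, χ (b i) * ∑ v ∈ D, (c i v : Om) * C v := by
  have h1 : ∑ i, χ (b i) * ∑ v ∈ D, (c i v : Om) * C v =
      ∑ v ∈ D, (∑ i, (c i v : Om) * χ (b i)) * C v := by
    simp only [Finset.mul_sum, Finset.sum_mul]
    rw [Finset.sum_comm]
    refine Finset.sum_congr rfl fun v _ => Finset.sum_congr rfl fun i _ => ?_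
    ring
  rw [h1, ← Finset.sum_add_distrib]
  refine Finset.sum_congr rfl fun v _ => ?_
  ring

/-- **G9.** -/
theorem tG9 : S_G9 := by
  intro hKap hRR hLin hDad hG4 hG8 f P hS N hN s hs hζ D u hu χ m hm hχ hk
  have hP : P.IsPrime := hS.prime
  have h2 : MP P 2 := hS.two
  have hV : ∀ v, VP P (χ v) := by
    intro v
    rcases hχ v with h | h
    · rw [h]
      exact VP.zero
    · refine VP.of_pow hm.pos ?_
      rw [h]
      exact VP.one
  obtain ⟨n, b, c, hind, hc⟩ := hLin P hP h2 χ hV D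
  have hρ : ∀ v ∈ D, TP P 2 (χ v - ∑ i, (c i v : Om) * χ (b i)) := by
    intro v hv
    refine hRR χ m hm hχ P hP h2 _ ?_ (hc v hv)
    refine sub_mem (Algebra.subset_adjoin ⟨v, rfl⟩) (sum_mem fun i _ => ?_)
    exact mul_mem (natCast_mem _ _) (Algebra.subset_adjoin ⟨b i, rfl⟩)
  have hw1 : ∀ i, (∏ v ∈ D, u v ^ c i v) ∈ Ln f N := fun i =>
    prod_mem fun v hv => pow_mem (hu v hv).1 _
  have hw2 : ∀ i, UP P (∏ v ∈ D, u v ^ c i v) := fun i =>
    UP.prod D _ fun v hv => UP.pow (hu v hv).2 _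
  have hkap : ∀ i, ∀ d : Gal(Om/ℚ), DD f P d → kap (∏ v ∈ D, u v ^ c i v) d = 0 := by
    intro i d hd
    have h3 := hk d hd
    rw [G9_split D χ b c] at h3
    have h4 : MP P (∑ v ∈ D, (χ v - ∑ i, (c i v : Om) * χ (b i)) * ((kap (u v) d).val : Om)) :=
      MP.sum D _ fun v hv => MP.mul_right (hc v hv) (VP.nat _)
    have h5 := h3.sub h4
    rw [add_sub_cancel_left] at h5
    have h6 : ∑ i, χ (b i) * ∑ v ∈ D, (c i v : Om) * ((kap (u v) d).val : Om) =
        ∑ i, ((∑ v ∈ D, c i v * (kap (u v) d).val : ℕ) : Om) * χ (b i) := by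
      refine Finset.sum_congr rfl fun i _ => ?_
      push_cast
      ring
    rw [h6] at h5
    have h7 := hind _ h5 i
    rw [hKap.2.2.2 D u (c i) d (fun v hv => ⟨(hu v hv).2.ne_zero, hd.2.1 N _ (hu v hv).1⟩)]
    have h8 := (ZMod.natCast_eq_zero_iff _ 2).2 h7
    push_cast at h8
    simpa only [ZMod.natCast_zmod_val] using h8
  have hwi : ∀ i, TP P 4 (s (∏ v ∈ D, u v ^ c i v) / (∏ v ∈ D, u v ^ c i v) - 1) := fun i =>
    G9_div (hw2 i) (hG8 f P hS N hN s hs hζ _ (hw1 i) (hw2 i) (hkap i))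
  have huv : ∀ v ∈ D, TP P 2 (s (u v) / u v - 1) := fun v hv =>
    G9_div (hu v hv).2 (hG4 f P hS N hN s hs hζ _ (hu v hv).1 (hu v hv).2.1)
  have hD : ∀ i, TP P 4 (∑ v ∈ D, (c i v : Om) * (s (u v) / u v - 1)) := by
    intro i
    have h3 := hDad P hP h2 s D u (c i) (fun v hv => ⟨(hu v hv).2.ne_zero, huv v hv⟩)
    have h4 := G9_sub (hwi i) h3
    rwa [sub_sub_cancel] at h4
  rw [G9_split D χ b c]
  refine G9_add (G9_sum _ _ _ fun v hv => G9_four (hρ v hv) (huv v hv))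
    (G9_sum _ _ _ fun i _ => G9_mul (hV _) (hD i))

end Pool.Agent.DI.GL
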