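import Pool.Agent.Lib.DI.G.SpecL

/-!
# Theorem DI, part G: `S_GAs`, the assembly of the conclusion `S_G` (helper27)
-/

set_option autoImplicit false

open scoped Pointwise

noncomputable section

namespace Pool.Agent.DI.GL

open Pool.Agent.MuZ Pool.Agent.FW Pool.Agent.DI Pool.Agent.DI.G

private theorem GAs_Nm (v u : OO) : Nm (v * u) = Nm v * Nm u := by
  unfold Nm
  have h1 : (v * u).re = v.re * u.re + -2 * v.im * u.im := QuadraticAlgebra.re_mul v u
  have h2 : (v * u).im = v.re * u.im + v.im * u.re + 1 * v.im * u.im :=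
    QuadraticAlgebra.im_mul v u
  rw [h1, h2]
  ring

private theorem GAs_cop {v u : OO} {N : ℕ} (h : Cop v N) (h' : Cop u N) : Cop (v * u) N := by
  unfold Cop at *
  rw [GAs_Nm]
  exact IsCoprime.mul_left h h'

theorem tGAs : S_GAs := by
  intro hS hSN hSys hSin hInv h9 hG3 hG7 f χ P hf h7 hχ hPi hne
  have hPp : P.IsPrime := hPi.1
  have hPw : MP P wO := hPi.2.2
  have hN : Npr P := ⟨hPi.1, hPi.2.1⟩
  have hwV : VP P wO := hPw.vp
  have hwb : VP P wbO := VP.sub VP.one hwV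
  have hww : (2 : Om) = wO * wbO := by
    unfold wbO
    linear_combination wO_sq
  have h2 : MP P 2 := by
    rw [hww]
    exact MP.mul_right hPw hwb
  have hw0 : wO ≠ 0 := by
    intro h
    rw [h, zero_mul] at hww
    exact two_ne_zero hww
  have hSit := hS f P hf h7 hN h2
  obtain ⟨μ, S, N, T, v0, s, a, hμ, hSh, hN3, hT, hv0, hs, hDw, hnot⟩ :=
    hG7 f χ P hf h7 hχ hPi hne
  obtain ⟨hFx, hζ⟩ := hSN f N s a hf h7 hN3 hs
  obtain ⟨m, hm, hχm⟩ := hχ.odd
  have hχ' : ∀ v, χ v = 0 ∨ χ v ^ m = 1 := by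
    intro v
    by_cases hv : Cop v f
    · exact Or.inr (hχm v hv)
    · exact Or.inl (hχ.zero v hv)
  obtain ⟨D0, hD0⟩ := hSys f N hf h7 (by omega)
  have hu : ∀ v ∈ D0, uN f N μ S T (v * v0) ∈ Ln f N ∧ UP P (uN f N μ S T (v * v0)) := by
    intro v hv
    have hc : Cop (v * v0) (2 * f) := GAs_cop (hD0.mem v hv).1 hv0
    have h := hG3 f μ S N T hf h7 hμ hSh (by omega) hT (v * v0) hc
    exact ⟨h.1, h.2.2.1 P hN⟩
  have hex : ∃ d, DD f P d ∧
      ¬ MP P (∑ v ∈ D0, χ v * ((kap (uN f N μ S T (v * v0)) d).val : Om)) := by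
    by_contra hcon
    have hcon' : ∀ d : Gal(Om/ℚ), DD f P d →
        MP P (∑ v ∈ D0, χ v * ((kap (uN f N μ S T (v * v0)) d).val : Om)) := by
      intro d hd
      by_contra h
      exact hcon ⟨d, hd, h⟩
    obtain ⟨y, hy, hsum⟩ := h9 f P hSit N hN3 s hFx hζ D0 (fun v => uN f N μ S T (v * v0)) hu
      χ m hm hχ' hcon'
    apply hnot D0 hD0.mem hD0.ex hD0.uni
    refine ⟨wbO ^ 2 * y, VP.mul (hwb.pow 2) hy, ?_⟩
    have h1 : ∑ v ∈ D0, χ v * (s (uN f N μ S T (v * v0)) / uN f N μ S T (v * v0) - 1) =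
        wO * ∑ v ∈ D0, χ v * Dw s (uN f N μ S T (v * v0)) := by
      rw [Finset.mul_sum]
      refine Finset.sum_congr rfl fun v _ => ?_
      unfold Dw
      field_simp
    have h4 : (4 : Om) = wO ^ 2 * wbO ^ 2 := by
      rw [← mul_pow, ← hww]
      norm_num
    apply mul_left_cancel₀ hw0
    rw [← h1]
    refine hsum.trans ?_
    rw [h4]
    ring
  obtain ⟨d, hd, hdn⟩ := hex
  refine ⟨μ, S, N, T, v0, d, hμ, hSh, hN3, hT, hv0, hd.1, hd.2.1, hd.2.2, ?_⟩
  intro D hD1 hD2 hD3 hMP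
  apply hdn
  have hD : IsSy f N D := ⟨hD1, hD2, hD3⟩
  have heq := hSin f N hf h7 D D0 hD hD0
    (fun v => χ v * ((kap (uN f N μ S T (v * v0)) d).val : Om)) (by
      intro v u h hv hu' hv1 hu1 hh hdvd
      obtain ⟨e1, e2⟩ := hInv f μ S N T hf h7 hμ hSh hN3 hT χ hχ v u h v0 hv hu' hv0 hv1 hu1 hh hdvd
      simp only [e1, e2])
  rw [← heq]
  exact hMP

end Pool.Agent.DI.GL
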