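import Pool.Agent.Lib.DI.G.SpecL

/-!
# Theorem DI, part G: the summands depend only on the class (`S_Inv`)
-/

set_option autoImplicit false

open scoped Pointwise

noncomputable section

namespace Pool.Agent.DI.GL

open Pool.Agent.MuZ Pool.Agent.FW Pool.Agent.DI Pool.Agent.DI.G

private theorem nm_mul (v u : OO) : Nm (v * u) = Nm v * Nm u := by
  unfold Nm
  simp only [QuadraticAlgebra.re_mul, QuadraticAlgebra.im_mul]
  ring

theorem tInv : S_Inv := by
  intro hU hG f μ S N T hf h7 hμ hS hN hT χ hχ v u h v0 hv hu hv0 hvN huN hh hvu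
  obtain ⟨⟨_, _, h1, _⟩, _, _, _, _, hcop, _, _, _, _, _, hlift, _⟩ := hU f N hf h7
  obtain ⟨m, hm, hm1⟩ := hχ.odd
  have hcm : ∀ a b : OO, Cop a (2 * f) → Cop b (2 * f) → Cop (a * b) (2 * f) := by
    intro a b ha hb
    unfold Cop at *
    rw [nm_mul]
    exact IsCoprime.mul_left ha hb
  refine ⟨?_, ?_⟩
  · have hx1 : χ 1 = 1 := by
      have h2 : χ 1 * χ 1 = χ 1 := by rw [← hχ.mul, one_mul]
      have h3 := hm1 1 (hcop 1 h1)
      have h4 : χ 1 ≠ 0 := by
        intro h0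
        rw [h0, zero_pow (by rintro rfl; simp at hm)] at h3
        exact zero_ne_one h3
      exact mul_right_cancel₀ h4 (by rw [h2, one_mul])
    have hxp : ∀ n : ℕ, χ (h ^ n) = χ h ^ n := by
      intro n
      induction n with
      | zero => rw [pow_zero, pow_zero, hx1]
      | succ n ih => rw [pow_succ, hχ.mul, ih, pow_succ]
    obtain ⟨_, k, t, ht⟩ := id hh
    have h5 : χ h ^ 2 ^ k = 1 := by
      rw [← hxp, show h ^ 2 ^ k = 1 + f * t by rw [← ht]; ring, hχ.per, hx1]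
    have h6 := hm1 h (hcop h hh)
    have h7' : χ h = 1 := by
      have h8 := orderOf_dvd_of_pow_eq_one h5
      have h9 := orderOf_dvd_of_pow_eq_one h6
      have h10 : Nat.Coprime (2 ^ k) m := Nat.Coprime.pow_left k (Nat.coprime_two_left.2 hm)
      have h11 : orderOf (χ h) = 1 := Nat.dvd_one.1 (h10 ▸ Nat.dvd_gcd h8 h9)
      exact orderOf_eq_one_iff.1 h11
    obtain ⟨t, ht⟩ := hvu
    rw [show v = h * u + f * t by rw [← ht]; ring, hχ.per, hχ.mul, h7', one_mul]
  · obtain ⟨h', hh', h2, h3⟩ := hlift h hh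
    have hA : (f : OO) ∣ h' * (u * v0) - v * v0 := by
      have : h' * (u * v0) - v * v0 = (h' - h) * (u * v0) - (v - h * u) * v0 := by ring
      rw [this]
      exact dvd_sub (Dvd.dvd.mul_right h3 _) (Dvd.dvd.mul_right hvu _)
    have hB : ((2 ^ N : ℕ) : OO) ∣ h' * (u * v0) - v * v0 := by
      have : h' * (u * v0) - v * v0 = (h' - 1) * (u * v0) + (u - 1) * v0 - (v - 1) * v0 := by ring
      rw [this]
      exact dvd_sub (dvd_add (Dvd.dvd.mul_right h2 _) (Dvd.dvd.mul_right huN _))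
        (Dvd.dvd.mul_right hvN _)
    have hco : IsCoprime (f : OO) ((2 ^ N : ℕ) : OO) :=
      Nat.Coprime.cast (Nat.Coprime.pow_right N (Nat.coprime_two_right.2 hf))
    have hC : ((f * 2 ^ N : ℕ) : OO) ∣ h' * (u * v0) - v * v0 := by
      rw [Nat.cast_mul]
      exact hco.mul_dvd hA hB
    obtain ⟨_, _, _, h4, _⟩ := hG f μ S N T hf h7 hμ hS (by omega) hT (v * v0) (hcm _ _ hv hv0)
    obtain ⟨_, _, _, _, h5, _⟩ := hG f μ S N T hf h7 hμ hS (by omega) hT (u * v0) (hcm _ _ hu hv0)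
    rw [← h4 _ hC, h5 h' hh']

end Pool.Agent.DI.GL
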