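import Pool.Agent.Lib.DI.G.SpecL
import Pool.Agent.Lib.FW.E.Ine
import Pool.Agent.Lib.FW.D.Lift
import Pool.Agent.Lib.MuZ.Tot

/-!
# Theorem DI, part G: inertia elements with given action on the roots of unity of order `2 ^ m`
-/

set_option autoImplicit false

open scoped Pointwise

noncomputable section

namespace Pool.Agent.DI.GL

open Pool.Agent.MuZ Pool.Agent.FW Pool.Agent.DI Pool.Agent.DI.G

theorem Iu_mem {A : Type} [CommRing A] (Q : Ideal A) (z : A) (h1 : z - 1 ∈ Q)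
    (f : Polynomial ℤ) : Polynomial.aeval z f - ((f.eval 1 : ℤ) : A) ∈ Q := by
  have h3 := Polynomial.sub_dvd_eval_sub z 1 (f.map (Int.castRingHom A))
  have h4 : (f.map (Int.castRingHom A)).eval z = Polynomial.aeval z f := by
    rw [Polynomial.eval_map, Polynomial.aeval_def]
    rfl
  have h5 : (f.map (Int.castRingHom A)).eval 1 = ((f.eval 1 : ℤ) : A) := by
    rw [Polynomial.eval_map, Polynomial.eval₂_at_one]
    rfl
  rw [h4, h5] at h3
  exact Q.mem_of_dvd h3 h1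

theorem tIu : S_Iu := by
  intro P hP hP2 m u hu
  have hfact : Fact (Nat.Prime 2) := ⟨Nat.prime_two⟩
  have h2P : ((2 : ℕ) : ZZ) ∈ P := by
    have hP' := hP
    rw [← MP.nat_iff]
    exact_mod_cast hP2
  have hpos : 0 < 2 ^ m := pow_pos (by norm_num) m
  have hne : NeZero (2 ^ m) := ⟨hpos.ne'⟩
  have hne' : NeZero ((2 ^ m : ℕ) : Om) := ⟨by
    rw [Nat.cast_ne_zero]
    exact hpos.ne'⟩
  obtain ⟨z0, hz⟩ := HasEnoughRootsOfUnity.exists_primitiveRoot Om (2 ^ m)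
  have hzK : z0 ∈ IntermediateField.adjoin ℚ {z0} := IntermediateField.mem_adjoin_simple_self ℚ z0
  have hzi : IsIntegral ℤ z0 := hz.isIntegral hpos
  obtain ⟨ζ, hζ⟩ : ∃ ζ : ZZ, (ζ : Om) = z0 := ⟨⟨z0, hzi⟩, rfl⟩
  have hζ1 : ζ ^ 2 ^ m = 1 := by
    apply Subtype.ext
    show (ζ : Om) ^ 2 ^ m = 1
    rw [hζ, hz.pow_eq_one]
  obtain ⟨τ, hτ⟩ := LiftAux.exists_m (2 ^ m) hpos u
    (Nat.Coprime.pow_right m hu.coprime_two_right)
  obtain ⟨ι, hι, hK⟩ := tEIne (IntermediateField.adjoin ℚ {z0}) P hP τ (by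
    intro y hy
    obtain ⟨f, hf⟩ := tot_gen 2 m z0 hz (y : Om) hy y.2
    have hco : ∀ x : ZZ, ((Polynomial.aeval x f : ZZ) : Om) = Polynomial.aeval (x : Om) f :=
      fun x => (Polynomial.aeval_algebraMap_apply Om x f).symm
    have hfy : Polynomial.aeval ζ f = y := by
      apply Subtype.ext
      rw [hco, hζ, hf]
    have hty : τ • y = Polynomial.aeval (ζ ^ u) f := by
      apply Subtype.ext
      rw [hco]
      have e1 : ((ζ ^ u : ZZ) : Om) = τ z0 := by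
        rw [hτ z0 hz.pow_eq_one, ← hζ]
        rfl
      have e2 : ((τ • y : ZZ) : Om) = τ (y : Om) := rfl
      rw [e1, e2, ← hf]
      exact (Polynomial.aeval_algHom_apply ((τ : Om →ₐ[ℚ] Om).restrictScalars ℤ) z0 f).symm
    have h1 : ζ - 1 ∈ P := tot_one 2 m Nat.prime_two P hP h2P ζ hζ1
    have h2 : ζ ^ u - 1 ∈ P := by
      refine tot_one 2 m Nat.prime_two P hP h2P _ ?_
      rw [← pow_mul, mul_comm, pow_mul, hζ1, one_pow]
    rw [hty, ← hfy]
    have h3 := P.sub_mem (Iu_mem P _ h2 f) (Iu_mem P _ h1 f)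
    rwa [sub_sub_sub_cancel_right] at h3)
  refine ⟨ι, hι, fun z hz' => ?_⟩
  obtain ⟨i, -, rfl⟩ := hz.eq_pow_of_pow_eq_one hz'
  rw [hK _ (pow_mem hzK i), hτ _ hz']

end Pool.Agent.DI.GL
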