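import Pool.Agent.Lib.DI.G.SpecL

/-!
# Theorem DI, part G, module Kap: the Kummer character
-/

set_option autoImplicit false

open scoped Pointwise

noncomputable section

namespace Pool.Agent.DI.GL

open Pool.Agent.MuZ Pool.Agent.FW Pool.Agent.DI Pool.Agent.DI.G

private theorem Kap_zero_iff (w : Om) (d : Gal(Om/ℚ)) : kap w d = 0 ↔ d (sqr w) = sqr w := by
  unfold kap
  split_ifs with h
  · exact ⟨fun _ => h, fun _ => rfl⟩
  · exact ⟨fun h1 => absurd h1 (by decide), fun h1 => absurd h1 h⟩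

private theorem Kap_zero_or (w : Om) (d : Gal(Om/ℚ)) : kap w d = 0 ∨ kap w d = 1 := by
  unfold kap
  split_ifs with h
  · exact Or.inl rfl
  · exact Or.inr rfl

private theorem Kap_one (w r : Om) (d : Gal(Om/ℚ)) (h : r ^ 2 = w) : kap w d = 0 ↔ d r = r := by
  rw [Kap_zero_iff]
  have h1 : r ^ 2 = sqr w ^ 2 := by rw [h, sqr_sq]
  rcases sq_eq_sq_iff_eq_or_eq_neg.1 h1 with h2 | h2
  · rw [h2]
  · rw [h2, map_neg, neg_inj]

private theorem Kap_pm (w r : Om) (d : Gal(Om/ℚ)) (h : r ^ 2 = w) (hd : d w = w) :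
    d r = r ∨ d r = -r := by
  have h1 : d r ^ 2 = r ^ 2 := by rw [← map_pow, h, hd]
  exact sq_eq_sq_iff_eq_or_eq_neg.1 h1

private theorem Kap_pos (w r : Om) (d : Gal(Om/ℚ)) (h : r ^ 2 = w) (h1 : d r = r) :
    kap w d = 0 := (Kap_one w r d h).2 h1

private theorem Kap_neg (w r : Om) (d : Gal(Om/ℚ)) (hw : w ≠ 0) (h : r ^ 2 = w) (h1 : d r = -r) :
    kap w d = 1 := by
  rcases Kap_zero_or w d with h2 | h2
  · exfalso
    have h3 := (Kap_one w r d h).1 h2
    rw [h3] at h1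
    have h4 : r = 0 := self_eq_neg.1 h1
    apply hw
    rw [← h, h4]
    ring
  · exact h2

private theorem Kap_mul (w w' : Om) (d : Gal(Om/ℚ)) (hw : w ≠ 0) (hw' : w' ≠ 0) (h : d w = w)
    (h' : d w' = w') : kap (w * w') d = kap w d + kap w' d := by
  have e : (sqr w * sqr w') ^ 2 = w * w' := by rw [mul_pow, sqr_sq, sqr_sq]
  have hww : w * w' ≠ 0 := mul_ne_zero hw hw'
  rcases Kap_pm w (sqr w) d (sqr_sq w) h with h1 | h1 <;>
    rcases Kap_pm w' (sqr w') d (sqr_sq w') h' with h2 | h2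
  · rw [Kap_pos w _ d (sqr_sq w) h1, Kap_pos w' _ d (sqr_sq w') h2,
      Kap_pos (w * w') _ d e (by rw [map_mul, h1, h2])]
    decide
  · rw [Kap_pos w _ d (sqr_sq w) h1, Kap_neg w' _ d hw' (sqr_sq w') h2,
      Kap_neg (w * w') _ d hww e (by rw [map_mul, h1, h2, mul_neg])]
    decide
  · rw [Kap_neg w _ d hw (sqr_sq w) h1, Kap_pos w' _ d (sqr_sq w') h2,
      Kap_neg (w * w') _ d hww e (by rw [map_mul, h1, h2, neg_mul])]
    decide
  · rw [Kap_neg w _ d hw (sqr_sq w) h1, Kap_neg w' _ d hw' (sqr_sq w') h2,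
      Kap_pos (w * w') _ d e (by rw [map_mul, h1, h2, neg_mul_neg])]
    decide

private theorem Kap_comp (w : Om) (d d' : Gal(Om/ℚ)) (hw : w ≠ 0) (h : d w = w) (h' : d' w = w) :
    kap w (d * d') = kap w d + kap w d' := by
  have hs := sqr_sq w
  rcases Kap_pm w (sqr w) d hs h with h1 | h1 <;>
    rcases Kap_pm w (sqr w) d' hs h' with h2 | h2
  · rw [Kap_pos w _ d hs h1, Kap_pos w _ d' hs h2,
      Kap_pos w _ (d * d') hs (by rw [AlgEquiv.mul_apply, h2, h1])]
    decide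
  · rw [Kap_pos w _ d hs h1, Kap_neg w _ d' hw hs h2,
      Kap_neg w _ (d * d') hw hs (by rw [AlgEquiv.mul_apply, h2, map_neg, h1])]
    decide
  · rw [Kap_neg w _ d hw hs h1, Kap_pos w _ d' hs h2,
      Kap_neg w _ (d * d') hw hs (by rw [AlgEquiv.mul_apply, h2, h1])]
    decide
  · rw [Kap_neg w _ d hw hs h1, Kap_neg w _ d' hw hs h2,
      Kap_pos w _ (d * d') hs (by rw [AlgEquiv.mul_apply, h2, map_neg, h1, neg_neg])]
    decide

private theorem Kap_id (d : Gal(Om/ℚ)) : kap 1 d = 0 :=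
  Kap_pos 1 1 d (one_pow 2) (map_one d)

private theorem Kap_pow (u : Om) (d : Gal(Om/ℚ)) (hu : u ≠ 0) (h : d u = u) (c : ℕ) :
    kap (u ^ c) d = (c : ZMod 2) * kap u d := by
  induction c with
  | zero => rw [pow_zero, Kap_id, Nat.cast_zero, zero_mul]
  | succ c ih =>
    rw [pow_succ, Kap_mul _ _ d (pow_ne_zero c hu) hu (by rw [map_pow, h]) h, ih, Nat.cast_succ]
    ring

theorem tKap : S_Kap := by
  refine ⟨Kap_one, Kap_mul, Kap_comp, ?_⟩
  intro s u c d
  classical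
  induction s using Finset.induction_on with
  | empty =>
    intro _
    rw [Finset.prod_empty, Finset.sum_empty]
    exact Kap_id d
  | insert a s ha ih =>
    intro h
    have h1 := ih fun v hv => h v (Finset.mem_insert_of_mem hv)
    obtain ⟨h2, h3⟩ := h a (Finset.mem_insert_self a s)
    rw [Finset.prod_insert ha, Finset.sum_insert ha, ← h1, ← Kap_pow (u a) d h2 h3 (c a)]
    apply Kap_mul
    · exact pow_ne_zero _ h2
    · exact Finset.prod_ne_zero_iff.2 fun v hv =>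
        pow_ne_zero _ (h v (Finset.mem_insert_of_mem hv)).1
    · rw [map_pow, h3]
    · rw [map_prod]
      refine Finset.prod_congr rfl fun v hv => ?_
      rw [map_pow, (h v (Finset.mem_insert_of_mem hv)).2]

end Pool.Agent.DI.GL
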