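import Pool.Agent.Lib.DI.G.SpecL

set_option autoImplicit false

/-! # Theorem DI, part G, module RR: the ring generated by roots of unity of odd order -/

open scoped Pointwise

noncomputable section

namespace Pool.Agent.DI.GL

open Pool.Agent.MuZ Pool.Agent.FW Pool.Agent.DI Pool.Agent.DI.G

private theorem RR_add (R : Subalgebra ℤ Om) (t : ℕ) : ∀ x ∈ R, ∀ x' ∈ R, ∃ w ∈ R,
    (x + x') ^ 2 ^ t = x ^ 2 ^ t + x' ^ 2 ^ t + 2 * w := by
  induction t with
  | zero =>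
    intro x _ x' _
    exact ⟨0, R.zero_mem, by ring⟩
  | succ t ih =>
    intro x hx x' hx'
    obtain ⟨w, hw, h⟩ := ih x hx x' hx'
    refine ⟨x ^ 2 ^ t * x' ^ 2 ^ t + 2 * (w * (x ^ 2 ^ t + x' ^ 2 ^ t)) + 2 * w ^ 2, ?_, ?_⟩
    · have h2 : (2 : Om) ∈ R := by
        have h3 := R.algebraMap_mem (2 : ℤ)
        rwa [map_ofNat] at h3
      have ha := R.pow_mem hx (2 ^ t)
      have hb := R.pow_mem hx' (2 ^ t)
      exact R.add_mem (R.add_mem (R.mul_mem ha hb)
        (R.mul_mem h2 (R.mul_mem hw (R.add_mem ha hb)))) (R.mul_mem h2 (R.pow_mem hw 2))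
    · rw [pow_succ 2 t, pow_mul, pow_mul, pow_mul, h]
      ring

/-- The ring generated by roots of unity of odd order. -/
theorem tRR : S_RR := by
  intro hArch χ m hm hχ P hP h2 x hx hxP
  have := hP
  have hm0 : 0 < m := hm.pos
  obtain ⟨R, hR⟩ : ∃ R : Subalgebra ℤ Om, R = Algebra.adjoin ℤ (Set.range χ) := ⟨_, rfl⟩
  obtain ⟨t, ht⟩ : ∃ t, t = Nat.totient m := ⟨_, rfl⟩
  have ht0 : 0 < t := by rw [ht]; exact Nat.totient_pos.2 hm0
  have hq2 : 2 ≤ 2 ^ t := by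
    calc 2 = 2 ^ 1 := rfl
      _ ≤ 2 ^ t := Nat.pow_le_pow_right two_pos ht0
  have hq0 : 2 ^ t ≠ 0 := by omega
  have h2R : (2 : Om) ∈ R := by
    have h3 := R.algebraMap_mem (2 : ℤ)
    rwa [map_ofNat] at h3
  have hgen : ∀ v, χ v ^ 2 ^ t = χ v := by
    intro v
    rcases hχ v with h | h
    · rw [h, zero_pow hq0]
    · have h3 : 2 ^ t ≡ 1 [MOD m] := by
        rw [ht]
        exact Nat.ModEq.pow_totient (Nat.coprime_two_left.2 hm)
      have h4 : m ∣ 2 ^ t - 1 := (Nat.modEq_iff_dvd' (by omega)).1 h3.symm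
      obtain ⟨k, hk⟩ := h4
      have h5 : 2 ^ t = m * k + 1 := by omega
      rw [h5, pow_succ, pow_mul, h, one_pow, one_mul]
  have hA : ∀ x ∈ R, ∃ y ∈ R, x ^ 2 ^ t = x + 2 * y := by
    intro x hx
    rw [hR] at hx
    refine Algebra.adjoin_induction (p := fun x _ => ∃ y ∈ R, x ^ 2 ^ t = x + 2 * y)
      ?_ ?_ ?_ ?_ hx
    · rintro _ ⟨v, rfl⟩
      exact ⟨0, R.zero_mem, by rw [hgen, mul_zero, add_zero]⟩
    · intro n
      have h3 : (2 : ℤ) ∣ n ^ 2 ^ t - n := by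
        rw [← even_iff_two_dvd, Int.even_sub, Int.even_pow' hq0]
      obtain ⟨k, hk⟩ := h3
      refine ⟨(k : Om), ?_, ?_⟩
      · have h4 := R.algebraMap_mem k
        rwa [eq_intCast (algebraMap ℤ Om) k] at h4
      · have h4 : n ^ 2 ^ t = n + 2 * k := by linarith
        rw [eq_intCast (algebraMap ℤ Om) n, ← Int.cast_pow, h4]
        push_cast
        ring
    · rintro a b ha hb ⟨y, hy, h3⟩ ⟨y', hy', h4⟩
      rw [← hR] at ha hb
      obtain ⟨w, hw, h5⟩ := RR_add R t a ha b hb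
      refine ⟨y + y' + w, R.add_mem (R.add_mem hy hy') hw, ?_⟩
      rw [h5, h3, h4]
      ring
    · rintro a b ha hb ⟨y, hy, h3⟩ ⟨y', hy', h4⟩
      rw [← hR] at ha hb
      refine ⟨a * y' + y * b + 2 * (y * y'), R.add_mem (R.add_mem (R.mul_mem ha hy')
        (R.mul_mem hy hb)) (R.mul_mem h2R (R.mul_mem hy hy')), ?_⟩
      rw [mul_pow, h3, h4]
      ring
  have hB : ∀ k : ℕ, ∀ x ∈ R, ∃ y ∈ R, x ^ (2 ^ t) ^ k = x + 2 * y := by
    intro k
    induction k with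
    | zero =>
      intro x _
      exact ⟨0, R.zero_mem, by rw [pow_zero, pow_one, mul_zero, add_zero]⟩
    | succ k ih =>
      intro x hx
      obtain ⟨y, hy, h3⟩ := ih x hx
      obtain ⟨y', hy', h4⟩ := hA (x ^ (2 ^ t) ^ k) (R.pow_mem hx _)
      refine ⟨y + y', R.add_mem hy hy', ?_⟩
      rw [pow_succ (2 ^ t) k, pow_mul, h4, h3]
      ring
  have hV : ∀ x ∈ R, VP P x := by
    intro x hx
    rw [hR] at hx
    refine Algebra.adjoin_induction (p := fun x _ => VP P x) ?_ ?_ ?_ ?_ hx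
    · rintro _ ⟨v, rfl⟩
      rcases hχ v with h | h
      · rw [h]
        exact VP.zero
      · apply VP.integral
        apply IsIntegral.of_pow hm0
        rw [h]
        exact isIntegral_one
    · intro n
      rw [eq_intCast (algebraMap ℤ Om) n]
      exact VP.int n
    · intro a b _ _ ha hb
      exact ha.add hb
    · intro a b _ _ ha hb
      exact ha.mul hb
  obtain ⟨K, hK⟩ := hArch P hP h2 x hxP 1
  have hKq : K ≤ (2 ^ t) ^ K := (Nat.lt_pow_self (by omega)).le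
  obtain ⟨y0, hy0, h3⟩ := hK _ hKq
  obtain ⟨y, hy, h4⟩ := hB K x (by rw [hR]; exact hx)
  refine ⟨y0 - y, hy0.sub (hV y hy), ?_⟩
  rw [h3] at h4
  linear_combination -h4

end Pool.Agent.DI.GL
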