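import Pool.Agent.Lib.DI.G.SpecL
import Pool.Agent.Lib.DI.E.Base

/-! # Theorem DI, part G: the element `s` fixes `L` and maps `ζ` to `- ζ` (author helper94) -/

set_option autoImplicit false

open scoped Pointwise

noncomputable section

namespace Pool.Agent.DI.GL

open Pool.Agent.MuZ Pool.Agent.FW Pool.Agent.DI Pool.Agent.DI.G

private theorem SN_cj_pow (v : OO) (n : ℕ) : cjO (v ^ n) = cjO v ^ n := by
  induction n with
  | zero =>
    rw [pow_zero, pow_zero]
    have := E.cjO_nat 1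
    rwa [Nat.cast_one] at this
  | succ n ih => rw [pow_succ, pow_succ, E.cjO_mul, ih]

private theorem SN_cj_pbO : cjO pbO = pO := by
  apply E.OO.ext' <;> simp [cjO, pO, pbO]

private theorem SN_cj_pO : cjO pO = pbO := by
  apply E.OO.ext' <;> simp [cjO, pO, pbO]

private theorem SN_add : pO + pbO = 1 := by
  apply E.OO.ext'
  · rw [E.re_one]
    simp [pO, pbO]
  · rw [E.im_one]
    simp [pO, pbO]

private theorem SN_mul : pO * pbO = 2 := by
  apply E.OO.ext'
  · rw [E.re_mul]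
    have := E.re_nat 2
    push_cast at this
    rw [this]
    simp [pO, pbO]
  · rw [E.im_mul]
    have := E.im_nat 2
    push_cast at this
    rw [this]
    simp [pO, pbO]

private theorem SN_norm {N : ℕ} {a : OO} (db : pbO ^ N ∣ a - 1) (dp : pO ^ N ∣ a - 1 - 2 ^ (N - 1)) :
    ((2 ^ N : ℕ) : ℤ) ∣ Nm a - (1 + 2 ^ (N - 1)) := by
  have h1 : pO ^ N ∣ cjO a - 1 := by
    have h2 := E.dvd_cjO db
    rw [SN_cj_pow, SN_cj_pbO, E.cjO_sub] at h2
    have h3 := E.cjO_nat 1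
    rw [Nat.cast_one] at h3
    rwa [h3] at h2
  obtain ⟨n, hn⟩ : ∃ n : ℤ, n = Nm a - (1 + 2 ^ (N - 1)) := ⟨_, rfl⟩
  rw [← hn]
  have h4 : (n : OO) = (a - 1 - 2 ^ (N - 1)) * cjO a + (1 + 2 ^ (N - 1)) * (cjO a - 1) := by
    rw [hn]
    push_cast
    rw [← E.mul_cjO]
    ring
  have h5 : pO ^ N ∣ (n : OO) := by
    rw [h4]
    exact dvd_add (dp.mul_right _) (h1.mul_left _)
  have h6 : pbO ^ N ∣ (n : OO) := by
    have h7 := E.dvd_cjO h5
    rwa [SN_cj_pow, SN_cj_pO, E.cjO_int] at h7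
  have hc : IsCoprime (pO ^ N) (pbO ^ N) := IsCoprime.pow ⟨1, 1, by rw [one_mul, one_mul]; exact SN_add⟩
  have h8 := hc.mul_dvd h5 h6
  rw [← mul_pow, SN_mul] at h8
  have h9 : ((2 ^ N : ℕ) : OO) ∣ (n : OO) := by
    push_cast
    exact h8
  have h10 := ((E.nat_dvd_iff _ _).1 h9).1
  rwa [E.re_int] at h10

theorem tSN : S_SN := by
  rintro hE6 f N s a hodd - hN ⟨gk, psi, df, db, dp⟩
  have hf : 0 < f := hodd.pos
  have hm : 0 < f * 2 ^ N := Nat.mul_pos hf (Nat.pos_of_ne_zero (pow_ne_zero _ two_ne_zero))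
  have hdvd : f ∣ f * 2 ^ N := Dvd.intro _ rfl
  constructor
  · intro x hx
    rcases psi with h | h
    · have h1 := E.psi_level hm hdvd h
      refine hx s gk a h1 ⟨h1.1, 0, ?_⟩
      rw [pow_zero, pow_one]
      exact df
    · have h1 := E.psi_level hm hdvd h
      refine hx s gk (-a) h1 ⟨h1.1, 1, ?_⟩
      have e : (-a) ^ 2 ^ 1 - 1 = (a - 1) * (a + 1) := by
        rw [pow_one]
        ring
      rw [e]
      exact df.mul_right _
  · intro ζ hζ
    have hone : ζ ^ (f * 2 ^ N) = 1 := by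
      rw [mul_comm, pow_mul, hζ.pow_eq_one, one_pow]
    have h1 : s ζ = ζ ^ (Nm a).toNat := by
      rcases psi with h | h
      · exact hE6 s gk _ a hm h ζ hone
      · have h2 := hE6 s gk _ (-a) hm h ζ hone
        rwa [E.Nm_neg] at h2
    have h2 : 1 + 2 ^ (N - 1) ≡ (Nm a).toNat [MOD 2 ^ N] := by
      rw [Nat.modEq_iff_dvd, Int.toNat_of_nonneg (E.Nm_nonneg a)]
      have := SN_norm db dp
      push_cast at this ⊢
      exact this
    rw [h1, ← pow_eq_pow_of_modEq h2 hζ.pow_eq_one, pow_add, pow_one]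
    have hN1 : N - 1 + 1 = N := by omega
    have h3 : (ζ ^ 2 ^ (N - 1) - 1) * (ζ ^ 2 ^ (N - 1) + 1) = 0 := by
      have h4 : ζ ^ 2 ^ (N - 1) * ζ ^ 2 ^ (N - 1) = 1 := by
        rw [← pow_add, ← two_mul, ← pow_succ', hN1]
        exact hζ.pow_eq_one
      linear_combination h4
    rcases mul_eq_zero.1 h3 with h5 | h5
    · exfalso
      refine hζ.pow_ne_one_of_pos_of_lt (l := 2 ^ (N - 1)) (pow_ne_zero _ two_ne_zero) ?_
        (sub_eq_zero.1 h5)
      exact Nat.pow_lt_pow_right (by norm_num) (by omega)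
    · rw [eq_neg_of_add_eq_zero_left h5]
      ring

end Pool.Agent.DI.GL
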