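import Pool.Agent.Lib.DI.G.SpecL

/-!
# Theorem DI, part G, module `Sin`: sums over two systems agree

Author helper72 (proof of helper21, docstring of `S_Sin`).
-/

set_option autoImplicit false

open scoped Pointwise

noncomputable section

namespace Pool.Agent.DI.GL

open Pool.Agent.MuZ Pool.Agent.FW Pool.Agent.DI Pool.Agent.DI.G

/-- The relation: same class modulo `H_f`. -/
private def Sin_R (f : ℕ) (v u : OO) : Prop := ∃ h, Hf f h ∧ (f : OO) ∣ v - h * u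

private lemma Sin_symm (hU : S_UHN) {f : ℕ} (hf : Odd f) (h7 : 7 ∣ f) {v u : OO}
    (h : Sin_R f v u) : Sin_R f u v := by
  obtain ⟨g, hg, hd⟩ := h
  obtain ⟨-, -, -, -, -, -, -, -, -, hinv, -⟩ := hU f 0 hf h7
  obtain ⟨k, hk⟩ := hg.2
  have e : g * g ^ (2 ^ k - 1) = g ^ 2 ^ k := by
    rw [← pow_succ', Nat.sub_add_cancel Nat.one_le_two_pow]
  have hm : (f : OO) ∣ g * g ^ (2 ^ k - 1) - 1 := by rw [e]; exact hk
  refine ⟨g ^ (2 ^ k - 1), hinv _ _ hg hm, ?_⟩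
  have : u - g ^ (2 ^ k - 1) * v =
      -(g ^ (2 ^ k - 1) * (v - g * u)) - (g * g ^ (2 ^ k - 1) - 1) * u := by ring
  rw [this]
  exact dvd_sub (dvd_neg.mpr (hd.mul_left _)) (hm.mul_right _)

private lemma Sin_trans (hU : S_UHN) {f : ℕ} (hf : Odd f) (h7 : 7 ∣ f) {v u w : OO}
    (h : Sin_R f v u) (h' : Sin_R f u w) : Sin_R f v w := by
  obtain ⟨g, hg, hd⟩ := h
  obtain ⟨g', hg', hd'⟩ := h'
  refine ⟨g * g', (hU f 0 hf h7).2.1 _ _ hg hg', ?_⟩
  have : v - g * g' * w = (v - g * u) + g * (u - g' * w) := by ring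
  rw [this]
  exact dvd_add hd (hd'.mul_left _)

private lemma Sin_cop {f : ℕ} {v : OO} (h : Cop v (2 * f)) : Cop v f := by
  unfold Cop at h ⊢
  rw [Nat.cast_mul] at h
  exact h.of_mul_right_right

/-- Sums over two systems agree. -/
theorem tSin : S_Sin := by
  intro hU f N hf h7 D D' hD hD' F hF
  classical
  have key : ∀ v : OO, ∃ u : OO, v ∈ D → u ∈ D' ∧ Sin_R f v u := by
    intro v
    by_cases hv : v ∈ D
    · obtain ⟨u, hu, h⟩ := hD'.ex v (Sin_cop (hD.mem v hv).1)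
      exact ⟨u, fun _ => ⟨hu, h⟩⟩
    · exact ⟨0, fun h => absurd h hv⟩
  choose i hi using key
  refine Finset.sum_bij (fun v _ => i v) (fun v hv => (hi v hv).1) ?_ ?_ ?_
  · intro v hv v' hv' e
    have h1 := (hi v hv).2
    have h2 := (hi v' hv').2
    have e' : i v = i v' := e
    rw [e'] at h1
    exact hD.uni v hv v' hv' (Sin_trans hU hf h7 h2 (Sin_symm hU hf h7 h1))
  · intro u hu
    obtain ⟨v, hv, h⟩ := hD.ex u (Sin_cop (hD'.mem u hu).1)
    exact ⟨v, hv, hD'.uni (i v) (hi v hv).1 u hu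
      (Sin_trans hU hf h7 (show Sin_R f u v from h) (hi v hv).2)⟩
  · intro v hv
    obtain ⟨h, hh, hd⟩ := (hi v hv).2
    exact hF v (i v) h (hD.mem v hv).1 (hD'.mem _ (hi v hv).1).1 (hD.mem v hv).2
      (hD'.mem _ (hi v hv).1).2 hh hd

end Pool.Agent.DI.GL
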