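import Pool.Agent.Lib.DI.G.SpecL
import Pool.Agent.Lib.MuZ.Tot

set_option autoImplicit false

/-!
# Theorem DI, part G: `P` is maximal, the stabiliser of `P` is closed
-/

open scoped Pointwise

noncomputable section

namespace Pool.Agent.DI.GL

open Pool.Agent.MuZ Pool.Agent.FW Pool.Agent.DI Pool.Agent.DI.G

theorem Stb_two {P : Ideal ZZ} (hP : P.IsPrime) : MP P 2 ↔ (2 : ZZ) ∈ P := by
  have h := MP.nat_iff (P := P) 2
  push_cast at h
  exact h

theorem Stb_max {P : Ideal ZZ} (hP : P.IsPrime) (h2 : (2 : ZZ) ∈ P) : P.IsMaximal := by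
  have hint : Algebra.IsIntegral ℤ ZZ := by
    constructor
    rintro ⟨x, hx⟩
    have h1 : IsIntegral ℤ x := hx
    obtain ⟨f, hf, h0⟩ := h1
    refine ⟨f, hf, Subtype.ext ?_⟩
    have h3 := Polynomial.hom_eval₂ f (algebraMap ℤ ZZ) (algebraMap ZZ Om) ⟨x, hx⟩
    have h4 : (algebraMap ZZ Om).comp (algebraMap ℤ ZZ) = algebraMap ℤ Om := RingHom.ext_int _ _
    rw [h4] at h3
    exact h3.trans h0
  have hmax : (Ideal.span {(2 : ℤ)}).IsMaximal :=
    PrincipalIdealRing.isMaximal_of_irreducible Int.prime_two.irreducible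
  have hco : P.comap (algebraMap ℤ ZZ) = Ideal.span {(2 : ℤ)} := by
    refine (hmax.eq_of_le ?_ ?_).symm
    · exact (Ideal.comap_isPrime (algebraMap ℤ ZZ) P).ne_top
    · rw [Ideal.span_singleton_le_iff_mem, Ideal.mem_comap]
      have h5 : algebraMap ℤ ZZ 2 = 2 := map_ofNat _ 2
      rwa [h5]
  refine Ideal.isMaximal_of_isIntegral_of_isMaximal_comap (R := ℤ) P ?_
  rw [hco]
  exact hmax

theorem Stb_stab {P : Ideal ZZ} (hP : P.IsPrime) (h2 : (2 : ZZ) ∈ P) (d : Gal(Om/ℚ)) :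
    StP P d ↔ d ∈ MulAction.stabilizer Gal(Om/ℚ) P := by
  rw [MulAction.mem_stabilizer_iff]
  constructor
  · intro h
    have hdP : (d • P).IsPrime := Ideal.IsPrime.smul d
    have h3 : (2 : ZZ) ∈ d • P := by
      have h4 := (smul_mem_smul_iff (P := P) d (2 : ZZ)).2 h2
      have h5 : d • (2 : ZZ) = 2 := by
        apply Subtype.ext
        rw [smul_coe]
        exact map_ofNat d 2
      rwa [h5] at h4
    refine (Stb_max hdP h3).eq_of_le hP.ne_top ?_
    intro x hx
    rw [Ideal.mem_pointwise_smul_iff_inv_smul_mem] at hx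
    have h6 := h _ hx
    rwa [smul_inv_smul] at h6
  · intro h x hx
    have h4 := (smul_mem_smul_iff (P := P) d x).2 hx
    rwa [h] at h4

theorem tStb : S_Stb := by
  intro P hP hP2
  have h2 : (2 : ZZ) ∈ P := (Stb_two hP).1 hP2
  refine ⟨Stb_max hP h2, Stb_stab hP h2, ?_, ?_⟩
  · intro d hd x hx
    have h3 : d • x - x ∈ P := hd x
    have h4 := P.add_mem h3 hx
    rwa [sub_add_cancel] at h4
  · let _ : TopologicalSpace ZZ := ⊥
    have hdisc : DiscreteTopology ZZ := ⟨rfl⟩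
    have hcs : ContinuousSMul Gal(Om/ℚ) ZZ :=
      continuousSMul_iff_stabilizer_isOpen.mpr tot_stab
    have e : {d : Gal(Om/ℚ) | StP P d} =
        ⋂ x : ZZ, (fun σ : Gal(Om/ℚ) => σ • x) ⁻¹' {y | x ∈ P → y ∈ P} := by
      ext σ
      simp only [Set.mem_iInter, Set.mem_preimage, Set.mem_ofPred_eq, StP]
    rw [e]
    refine isClosed_iInter fun x => IsClosed.preimage ?_ (isClosed_discrete _)
    fun_prop

end Pool.Agent.DI.GL
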