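import Pool.Agent.Lib.DI.G.SpecL
import Pool.Agent.Lib.DI.E.Base

/-! Theorem DI, part G4, G8, G9, module Sys: existence of a system of representatives. -/

set_option autoImplicit false

open scoped Pointwise

noncomputable section

namespace Pool.Agent.DI.GL

open Pool.Agent.MuZ Pool.Agent.FW Pool.Agent.DI Pool.Agent.DI.G

private theorem Sys_star {f : ℕ} (hf : Odd f) (N : ℕ) (v : OO) :
    ∃ u : OO, (f : OO) ∣ u - v ∧ ((2 ^ N : ℕ) : OO) ∣ u - 1 := by
  have hc : IsCoprime (f : ℤ) ((2 ^ N : ℕ) : ℤ) :=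
    Nat.isCoprime_iff_coprime.2 (Nat.Coprime.pow_right N (Nat.coprime_two_right.2 hf))
  obtain ⟨x, y, hxy⟩ := hc
  have h1 : ((x * f + y * (2 ^ N : ℕ) : ℤ) : OO) = 1 := by rw [hxy]; simp
  rw [Int.cast_add, Int.cast_mul, Int.cast_mul, Int.cast_natCast, Int.cast_natCast] at h1
  refine ⟨v * (y * (2 ^ N : ℕ)) + x * f, ⟨(x : OO) - v * x, ?_⟩, ⟨v * y - y, ?_⟩⟩
  · linear_combination v * h1
  · linear_combination h1

/-- The relation. -/
private def Sys_rel (f : ℕ) (v u : OO) : Prop := ∃ h, Hf f h ∧ (f : OO) ∣ v - h * u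

private theorem Sys_trans {f : ℕ} (hmul : ∀ v u : OO, Hf f v → Hf f u → Hf f (v * u)) {v u w : OO}
    (h1 : Sys_rel f v u) (h2 : Sys_rel f u w) : Sys_rel f v w := by
  obtain ⟨h, hh, a, ha⟩ := h1
  obtain ⟨k, hk, b, hb⟩ := h2
  refine ⟨h * k, hmul _ _ hh hk, a + h * b, ?_⟩
  linear_combination ha + h * hb

private theorem Sys_symm {f : ℕ} (hcop : ∀ v : OO, Hf f v → Cop v f)
    (hinv : ∀ v u : OO, Hf f v → (f : OO) ∣ v * u - 1 → Hf f u) {v u : OO}
    (h1 : Sys_rel f v u) : Sys_rel f u v := by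
  obtain ⟨h, hh, a, ha⟩ := h1
  obtain ⟨k, -, hk⟩ := E.cop_inv (hcop h hh)
  obtain ⟨b, hb⟩ := hk
  refine ⟨k, hinv h k hh ⟨b, hb⟩, -k * a - b * u, ?_⟩
  linear_combination (-k) * ha - u * hb

private theorem Sys_of_dvd {f : ℕ} (h1 : Hf f 1) {v u : OO} (h : (f : OO) ∣ v - u) :
    Sys_rel f v u := ⟨1, h1, by rwa [one_mul]⟩

theorem tSys : S_Sys := by
  classical
  intro hU f N hf h7 hN
  obtain ⟨⟨-, -, hone, -⟩, hmul, -, -, -, hcop, -, -, -, hinv, -, -, -⟩ := hU f N hf h7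
  have hf0 : 0 < f := hf.pos
  let s : Setoid {v : OO // Cop v f} :=
    { r := fun v u => Sys_rel f v.1 u.1
      iseqv :=
        { refl := fun v => Sys_of_dvd hone (by rw [sub_self]; exact dvd_zero _)
          symm := fun h => Sys_symm hcop hinv h
          trans := fun h h' => Sys_trans hmul h h' } }
  choose st hst1 hst2 using Sys_star hf N
  let g : OO → OO := fun v =>
    if h : Cop v f then st (Quotient.out (Quotient.mk s ⟨v, h⟩)).1 else 0
  have hg : ∀ v (h : Cop v f), ∃ q : Quotient s, q = Quotient.mk s ⟨v, h⟩ ∧ g v = st q.out.1 := by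
    intro v h
    exact ⟨_, rfl, dif_pos h⟩
  let A : Finset OO := ((Finset.range f) ×ˢ (Finset.range f)).image
    (fun p : ℕ × ℕ => (⟨p.1, p.2⟩ : OO))
  have hA : ∀ v : OO, ∃ v' ∈ A, (f : OO) ∣ v - v' := by
    intro v
    have hr := Int.emod_nonneg v.re (by exact_mod_cast hf0.ne' : (f : ℤ) ≠ 0)
    have hi := Int.emod_nonneg v.im (by exact_mod_cast hf0.ne' : (f : ℤ) ≠ 0)
    have hr2 := Int.emod_lt_of_pos v.re (by exact_mod_cast hf0 : (0 : ℤ) < f)
    have hi2 := Int.emod_lt_of_pos v.im (by exact_mod_cast hf0 : (0 : ℤ) < f)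
    have er : (((v.re % f).toNat : ℕ) : ℤ) = v.re % f := Int.toNat_of_nonneg hr
    have ei : (((v.im % f).toNat : ℕ) : ℤ) = v.im % f := Int.toNat_of_nonneg hi
    refine ⟨⟨((v.re % f).toNat : ℕ), ((v.im % f).toNat : ℕ)⟩, ?_, ?_⟩
    · refine Finset.mem_image.2 ⟨((v.re % f).toNat, (v.im % f).toNat), ?_, rfl⟩
      rw [Finset.mem_product, Finset.mem_range, Finset.mem_range]
      constructor <;> simp only <;> omega
    · rw [E.nat_dvd_iff, QuadraticAlgebra.re_sub, QuadraticAlgebra.im_sub]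
      constructor
      · simp only [er]
        exact Int.dvd_self_sub_emod
      · simp only [ei]
        exact Int.dvd_self_sub_emod
  refine ⟨(A.filter (fun v => Cop v f)).image g, ⟨?_, ?_, ?_⟩⟩
  · intro u hu
    obtain ⟨v, hv, rfl⟩ := Finset.mem_image.1 hu
    obtain ⟨q, -, hq⟩ := hg v (Finset.mem_filter.1 hv).2
    rw [hq]
    refine ⟨?_, hst2 _⟩
    have h1 : Cop (st q.out.1) f := by
      refine E.cop_congr (a := q.out.1) ?_ q.out.2
      rw [← neg_sub]
      exact (hst1 _).neg_right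
    have h2 : Cop (st q.out.1) 2 := by
      refine E.cop_congr (a := 1) ?_ (E.cop_one 2)
      rw [← neg_sub]
      refine Dvd.dvd.neg_right (dvd_trans ?_ (hst2 q.out.1))
      exact_mod_cast Nat.cast_dvd_cast (α := OO) (dvd_pow_self 2 (by omega : N ≠ 0))
    unfold Cop at *
    push_cast
    exact IsCoprime.mul_right (by exact_mod_cast h2) h1
  · intro v hv
    obtain ⟨v', hv', hvv'⟩ := hA v
    have hcv' : Cop v' f := E.cop_congr hvv' hv
    obtain ⟨q, hq1, hq⟩ := hg v' hcv'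
    refine ⟨g v', Finset.mem_image_of_mem g (Finset.mem_filter.2 ⟨hv', hcv'⟩), ?_⟩
    rw [hq]
    have h1 : Sys_rel f q.out.1 v' := by
      have : Quotient.mk s q.out = Quotient.mk s ⟨v', hcv'⟩ := by
        rw [Quotient.out_eq, hq1]
      exact Quotient.exact this
    have h2 : Sys_rel f (st q.out.1) q.out.1 := Sys_of_dvd hone (hst1 _)
    exact Sys_trans hmul (Sys_of_dvd hone hvv')
      (Sys_symm hcop hinv (Sys_trans hmul h2 h1))
  · intro u hu u' hu' h
    obtain ⟨v, hv, rfl⟩ := Finset.mem_image.1 hu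
    obtain ⟨v', hv', rfl⟩ := Finset.mem_image.1 hu'
    obtain ⟨q, -, hq⟩ := hg v (Finset.mem_filter.1 hv).2
    obtain ⟨q', -, hq'⟩ := hg v' (Finset.mem_filter.1 hv').2
    rw [hq, hq'] at h
    rw [hq, hq']
    have h0 : Sys_rel f (st q'.out.1) (st q.out.1) := h
    have h1 : Sys_rel f (st q.out.1) q.out.1 := Sys_of_dvd hone (hst1 _)
    have h2 : Sys_rel f (st q'.out.1) q'.out.1 := Sys_of_dvd hone (hst1 _)
    have h3 : Sys_rel f q'.out.1 q.out.1 :=
      Sys_trans hmul (Sys_symm hcop hinv h2) (Sys_trans hmul h0 h1)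
    have h4 : Quotient.mk s q'.out = Quotient.mk s q.out := Quotient.sound h3
    rw [Quotient.out_eq, Quotient.out_eq] at h4
    rw [h4]

end Pool.Agent.DI.GL
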