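import Pool.Agent.Lib.DI.G.SpecL

/-! # Theorem DI, part G, module X0: the elements `2 + ζ + ζ⁻¹` (helper92) -/

set_option autoImplicit false

open scoped Pointwise

noncomputable section

namespace Pool.Agent.DI.GL

open Pool.Agent.MuZ Pool.Agent.FW Pool.Agent.DI Pool.Agent.DI.G

private theorem X0_sq {z : Om} (h : z ≠ 0) : (z + z⁻¹) ^ 2 = xx (z ^ 2) := by
  unfold xx
  field_simp
  ring

private theorem X0_step {P : Ideal ZZ} [hP : P.IsPrime] (h2 : MP P 2) {z : Om} (h0 : z ≠ 0)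
    (hy : VP P (z + z⁻¹)) (hx : xx (z ^ 2) ≠ 0) (hv : VP P (2 / xx (z ^ 2))) :
    UP P (xx z ^ 2 / xx (z ^ 2)) := by
  have e : xx z ^ 2 / xx (z ^ 2) = 1 + 2 * ((2 / xx (z ^ 2)) * (1 + (z + z⁻¹))) := by
    have h1 : xx z = 2 + (z + z⁻¹) := by
      unfold xx
      ring
    have h3 := X0_sq h0
    have h4 : 2 / xx (z ^ 2) * xx (z ^ 2) = 2 := div_mul_cancel₀ _ hx
    rw [h1, div_eq_iff hx]
    linear_combination h3 - 2 * (1 + (z + z⁻¹)) * h4
  rw [e]
  refine UP.congr UP.one ?_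
  rw [add_sub_cancel_left]
  exact MP.mul_right h2 (hv.mul (VP.one.add hy))

private theorem X0_vp {P : Ideal ZZ} [hP : P.IsPrime] {z : Om} {n : ℕ} (hn : 0 < n)
    (h : z ^ n = 1) : VP P z ∧ VP P z⁻¹ := by
  refine ⟨VP.of_pow hn (by rw [h]; exact VP.one), VP.of_pow hn ?_⟩
  rw [inv_pow, h, inv_one]
  exact VP.one

private theorem X0_two {z : Om} (h : IsPrimitiveRoot z (2 ^ 2)) : xx z = 2 := by
  have h1 : IsPrimitiveRoot (z ^ 2) 2 := h.pow (by norm_num) (by norm_num)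
  have h2 : z ^ 2 = -1 := h1.eq_neg_one_of_two_right
  have h0 : z ≠ 0 := by
    rintro rfl
    norm_num at h2
  have h3 : z⁻¹ = -z := by
    rw [inv_eq_iff_eq_inv, ← div_eq_one_iff_eq (by simpa using h0)]
    rw [div_inv_eq_mul]
    linear_combination -h2
  unfold xx
  rw [h3]
  ring

private theorem X0_main {P : Ideal ZZ} [hP : P.IsPrime] (h2 : MP P 2) :
    ∀ n : ℕ, ∀ z : Om, IsPrimitiveRoot z (2 ^ (n + 2)) →
      xx z ≠ 0 ∧ MP P (xx z) ∧ VP P (2 / xx z) := by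
  intro n
  induction n with
  | zero =>
    intro z hz
    rw [X0_two hz]
    exact ⟨two_ne_zero, h2, by rw [div_self two_ne_zero]; exact VP.one⟩
  | succ n ih =>
    intro z hz
    have h0 : z ≠ 0 := hz.ne_zero (by positivity)
    have hz2 : IsPrimitiveRoot (z ^ 2) (2 ^ (n + 2)) := hz.pow (by positivity) (by ring)
    obtain ⟨i1, i2, i3⟩ := ih (z ^ 2) hz2
    have hv := X0_vp (P := P) (by positivity) hz.pow_eq_one
    have hu := X0_step h2 h0 (hv.1.add hv.2) i1 i3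
    have hu0 := hu.ne_zero
    have hx : xx z ≠ 0 := by
      intro h
      rw [h] at hu0
      norm_num at hu0
    refine ⟨hx, ?_, ?_⟩
    · refine MP.of_pow (n := 2) ?_
      have h3 : xx z ^ 2 = xx (z ^ 2) * (xx z ^ 2 / xx (z ^ 2)) := by
        rw [mul_div_cancel₀ _ i1]
      rw [h3]
      exact MP.mul_right i2 hu.1
    · refine VP.of_pow (n := 2) (by norm_num) ?_
      have h3 : (2 / xx z) ^ 2 = 2 * (2 / xx (z ^ 2)) * (xx z ^ 2 / xx (z ^ 2))⁻¹ := by
        field_simp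
      rw [h3]
      exact (h2.vp.mul i3).mul hu.inv.1

theorem tX0 : S_X0 := by
  intro P hP h2 N hN ζ hζ
  obtain ⟨n, rfl⟩ : ∃ n, N = n + 2 := ⟨N - 2, by omega⟩
  obtain ⟨h3, h4, h5⟩ := X0_main h2 n ζ hζ
  have hζ0 : ζ ≠ 0 := hζ.ne_zero (by positivity)
  refine ⟨h3, h4, h5, fun h => ?_, ?_⟩
  · have h6 : n = 0 := by omega
    subst h6
    exact X0_two hζ
  · rintro ζ' rfl
    have h0 : ζ' ≠ 0 := by
      rintro rfl
      norm_num at hζ0
    refine ⟨X0_sq h0, ?_⟩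
    have hp : ζ' ^ (2 * 2 ^ (n + 2)) = 1 := by
      rw [pow_mul]
      exact hζ.pow_eq_one
    have hv := X0_vp (P := P) (by positivity) hp
    exact X0_step h2 h0 (hv.1.add hv.2) h3 h5

end Pool.Agent.DI.GL
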