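import Pool.Agent.Lib.DI.G.L.SitE
import Pool.Agent.Lib.DI.G.L.SN
import Pool.Agent.Lib.DI.G.L.Iu
import Pool.Agent.Lib.DI.G.L.X0
import Pool.Agent.Lib.DI.G.L.D2
import Pool.Agent.Lib.DI.G.L.Ev
import Pool.Agent.Lib.DI.G.L.G4
import Pool.Agent.Lib.DI.G.L.Stb
import Pool.Agent.Lib.DI.G.L.Arch
import Pool.Agent.Lib.DI.G.L.Cpt
import Pool.Agent.Lib.DI.G.L.Kap
import Pool.Agent.Lib.DI.G.L.App
import Pool.Agent.Lib.DI.G.L.Pw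
import Pool.Agent.Lib.DI.G.L.G8a
import Pool.Agent.Lib.DI.G.L.G8b
import Pool.Agent.Lib.DI.G.L.G8
import Pool.Agent.Lib.DI.G.L.RR
import Pool.Agent.Lib.DI.G.L.Lin
import Pool.Agent.Lib.DI.G.L.Dad
import Pool.Agent.Lib.DI.G.L.G9
import Pool.Agent.Lib.DI.G.L.Sys
import Pool.Agent.Lib.DI.G.L.Sin
import Pool.Agent.Lib.DI.G.L.Inv
import Pool.Agent.Lib.DI.G.L.GAs

/-!
# Theorem DI, part G: `S_G` from `S_G3`, `S_G7`, part E and the elementary facts (G4, G8, G9)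
-/

set_option autoImplicit false

noncomputable section

namespace Pool.Agent.DI.GL

open Pool.Agent.MuZ Pool.Agent.FW Pool.Agent.DI Pool.Agent.DI.G

/-- The facts on the fields. -/
theorem sit (h1 : S_E1) (h6 : S_E6) (h8 : S_E8) (h9 : S_E9) (hU : S_UHN) (hR : FH.S_Unr)
    (f : ℕ) (P : Ideal ZZ) (hf : Odd f) (h7 : 7 ∣ f) (hP : Npr P) (h2 : MP P 2) : Sit f P :=
  tSitE h1 h6 h8 h9 hU f P hf h7 hP h2 (hR h8 h9 f hf h7 P hP h2)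

/-- **G4.** -/
theorem g4 (f : ℕ) (P : Ideal ZZ) (hS : Sit f P) (N : ℕ) (hN : 3 ≤ N) (s : Gal(Om/ℚ))
    (hs : Fx (Lf f) s) (hz : ∀ ζ : Om, IsPrimitiveRoot ζ (2 ^ N) → s ζ = -ζ) :
    ∀ r ∈ Ln f N, VP P r → TP P 2 (s r - r) :=
  tG4 tX0 (tD2 tIu tX0) (tEv tX0 (tD2 tIu tX0)) f P hS N hN s hs hz

/-- **G8.** The local lemma. -/
theorem g8 (f : ℕ) (P : Ideal ZZ) (hS : Sit f P) (N : ℕ) (hN : 3 ≤ N) (s : Gal(Om/ℚ))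
    (hs : Fx (Lf f) s) (hz : ∀ ζ : Om, IsPrimitiveRoot ζ (2 ^ N) → s ζ = -ζ) :
    ∀ w ∈ Ln f N, UP P w → (∀ d : Gal(Om/ℚ), DD f P d → kap w d = 0) → TP P 4 (s w - w) :=
  tG8 (tCpt tStb) tKap (tG8a tIu tX0 tStb tKap tPw)
    (tG8b tIu tX0 (tApp tStb tArch) (tEv tX0 (tD2 tIu tX0)) g4) f P hS N hN s hs hz

/-- **Part G** (G8, G9). -/
theorem tG (h1 : S_E1) (h6 : S_E6) (h8 : S_E8) (h9 : S_E9) (hU : S_UHN) (hR : FH.S_Unr)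
    (h3 : S_G3) (h7 : S_G7) : S_G :=
  tGAs (sit h1 h6 h8 h9 hU hR) (tSN h6) (tSys hU) (tSin hU) (tInv hU h3)
    (tG9 tKap (tRR fun P hP h2 => (tArch P hP h2).2.1) tLin tDad g4 g8) h3 h7

end Pool.Agent.DI.GL
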