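import Pool.Agent.Lib.DI.G.SpecL

/-!
# Theorem DI, part G: powers of `1 + 2 ^ N` modulo `2 ^ m`
-/

set_option autoImplicit false

open scoped Pointwise

noncomputable section

namespace Pool.Agent.DI.GL

open Pool.Agent.MuZ Pool.Agent.FW Pool.Agent.DI Pool.Agent.DI.G

private lemma Pw_pow {N : ℕ} (hN : 2 ≤ N) (k : ℕ) :
    ∃ b : ℤ, ((1 : ℤ) + 2 ^ N) ^ 2 ^ k = 1 + 2 ^ (N + k) * (1 + 2 * b) := by
  induction k with
  | zero => exact ⟨0, by simp⟩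
  | succ k ih =>
    obtain ⟨b, hb⟩ := ih
    obtain ⟨n, hn⟩ : ∃ n : ℕ, N + k = n + 2 := ⟨N + k - 2, by omega⟩
    refine ⟨b + 2 ^ n * (1 + 2 * b) ^ 2, ?_⟩
    have e1 : N + (k + 1) = n + 3 := by omega
    rw [pow_succ, pow_mul, hb, hn, e1]
    ring

private lemma Pw_main {N : ℕ} (hN : 2 ≤ N) {c : ℤ} (hc : (2 : ℤ) ^ N ∣ c - 1) (j : ℕ) :
    ∃ t : ℕ, (2 : ℤ) ^ (N + j) ∣ c - (1 + 2 ^ N) ^ t := by
  induction j with
  | zero => exact ⟨0, by simpa using hc⟩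
  | succ j ih =>
    obtain ⟨t, q, hq⟩ := ih
    have hodd : Odd (((1 : ℤ) + 2 ^ N) ^ t) := by
      refine Odd.pow (Even.one_add ?_)
      exact even_two.pow_of_ne_zero (by omega)
    rcases Int.even_or_odd q with h | h
    · obtain ⟨r, hr⟩ := h
      refine ⟨t, r, ?_⟩
      rw [hq, hr, ← add_assoc, pow_succ]
      ring
    · obtain ⟨b, hb⟩ := Pw_pow hN j
      obtain ⟨r, hr⟩ := h.sub_odd (hodd.mul (⟨b, by ring⟩ : Odd (1 + 2 * b)))
      refine ⟨t + 2 ^ j, r, ?_⟩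
      rw [pow_add, hb, ← add_assoc, pow_succ]
      linear_combination hq + (2 : ℤ) ^ (N + j) * hr

theorem tPw : S_Pw := by
  intro N hN m c hc
  have h1 : (2 : ℤ) ^ N ∣ (c : ℤ) - 1 := by
    have h2 := (Nat.modEq_iff_dvd.1 hc.symm)
    simpa using h2
  obtain ⟨t, ht⟩ := Pw_main hN h1 m
  refine ⟨t, (Nat.modEq_iff_dvd.2 ?_).symm⟩
  push_cast
  exact (pow_dvd_pow 2 (Nat.le_add_left m N)).trans ht

end Pool.Agent.DI.GL
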