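import Pool.Agent.Lib.DI.G.SpecL

/-!
# Theorem DI, part G: the facts on the fields `L`, `L_N`
-/

set_option autoImplicit false

open scoped Pointwise

noncomputable section

namespace Pool.Agent.DI.GL

open Pool.Agent.MuZ Pool.Agent.FW Pool.Agent.DI Pool.Agent.DI.G

private theorem SitE_Nm_nonneg (v : OO) : 0 ≤ Nm v := by
  unfold Nm
  nlinarith [sq_nonneg (2 * v.re + v.im), sq_nonneg v.im]

private theorem SitE_psi (τ : Gal(Om/ℚ)) (m k : ℕ) (a : OO) (hm : 0 < m) (hk : 0 < k)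
    (h : Psi τ (m * k) a) : Psi τ m a := by
  have h1 : (m : ℂ) ≠ 0 := Nat.cast_ne_zero.2 hm.ne'
  have h2 : (k : ℂ) ≠ 0 := Nat.cast_ne_zero.2 hk.ne'
  have hpt : ∀ v : OO, toC v / (m : ℂ) = toC ((k : OO) * v) / ((m * k : ℕ) : ℂ) := by
    intro v
    rw [map_mul, map_natCast, Nat.cast_mul]
    field_simp
  refine ⟨?_, fun v => ?_⟩
  · have h3 := h.1
    unfold Cop at h3 ⊢
    rw [Nat.cast_mul] at h3
    exact h3.of_mul_right_left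
  · have h3 := h.2 ((k : OO) * v)
    have e : a * ((k : OO) * v) = (k : OO) * (a * v) := by ring
    rw [e, ← hpt v, ← hpt (a * v)] at h3
    exact h3

private theorem SitE_root (N : ℕ) (ζ : Om) (hζ : IsPrimitiveRoot ζ (2 ^ N)) (v : OO) :
    (ζ ^ (Nm v).toNat = ζ ∨ ζ ^ (Nm v).toNat = ζ⁻¹) ↔
      ((2 : ℤ) ^ N ∣ Nm v - 1 ∨ (2 : ℤ) ^ N ∣ Nm v + 1) := by
  have h0 : ζ ≠ 0 := hζ.ne_zero (by positivity)
  have h1 : ζ ^ (Nm v).toNat = ζ ^ (Nm v : ℤ) := by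
    rw [← zpow_natCast, Int.toNat_of_nonneg (SitE_Nm_nonneg v)]
  have h2 : ζ ^ (Nm v : ℤ) = ζ ↔ ζ ^ (Nm v - 1) = 1 := by
    rw [zpow_sub₀ h0, zpow_one, div_eq_one_iff_eq h0]
  have h3 : ζ ^ (Nm v : ℤ) = ζ⁻¹ ↔ ζ ^ (Nm v + 1) = 1 := by
    rw [zpow_add₀ h0, zpow_one, mul_eq_one_iff_eq_inv₀ h0]
  have e : ((2 ^ N : ℕ) : ℤ) = (2 : ℤ) ^ N := by push_cast; rfl
  rw [h1, h2, h3, hζ.zpow_eq_one_iff_dvd, hζ.zpow_eq_one_iff_dvd, e]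

theorem tSitE : S_SitE := by
  intro h1 h6 h8 h9 hU f P hf h7 hP hP2 hR
  have hf0 : 0 < f := hf.pos
  obtain ⟨hn1, hn2, hn3, -⟩ := h9 f hf h7
  -- Galois theory of `L`
  obtain ⟨⟨hm, -, -, -⟩, hmul, -, hper, -, hcop, -⟩ := hU f 0 hf h7
  obtain ⟨-, hKQ, hE⟩ := h8 f (Hf f) hf0 hm hcop hper hmul
  have hgk : ∀ τ : Gal(Om/ℚ), Fx (Lf f) τ → τ ∈ GK := by
    intro τ hτ
    exact (IntermediateField.mem_fixingSubgroup_iff KQ τ).2 fun x hx => hτ x (hKQ hx)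
  refine ⟨hf, h7, hP, hP2, hgk, hn1, hn2, fun τ hτ => hn3 P hP hP2 τ hτ, hR, ?_⟩
  intro N ζ hζ τ
  have hk : 0 < 2 ^ N := by positivity
  have hm0 : 0 < f * 2 ^ N := Nat.mul_pos hf0 hk
  obtain ⟨⟨-, hmN, -, -⟩, -, hmulN, -, hperN, -, hcopN, -⟩ := hU f N hf h7
  obtain ⟨-, -, hEN⟩ := h8 (f * 2 ^ N) (HN f N) hm0 hmN hcopN hperN hmulN
  have hζm : ζ ^ (f * 2 ^ N) = 1 := by
    rw [mul_comm, pow_mul, hζ.pow_eq_one, one_pow]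
  constructor
  · intro hτ
    have hle : Fx (Lf f) τ := by
      intro x hx
      apply hτ
      intro σ hσ a ha hHN
      exact hx σ hσ a (SitE_psi σ f (2 ^ N) a hf0 hk ha) hHN.1
    have hG := hgk τ hle
    refine ⟨hle, ?_⟩
    obtain ⟨a, ha⟩ := h1.1 τ hG (f * 2 ^ N) hm0
    have hHN : HN f N a := (hEN τ hG a ha).1 hτ
    rw [h6 τ hG (f * 2 ^ N) a hm0 ha ζ hζm]
    exact (SitE_root N ζ hζ a).2 hHN.2
  · rintro ⟨hL, hz⟩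
    have hG := hgk τ hL
    obtain ⟨a, ha⟩ := h1.1 τ hG (f * 2 ^ N) hm0
    have hHf : Hf f a := (hE τ hG a (SitE_psi τ f (2 ^ N) a hf0 hk ha)).1 hL
    rw [h6 τ hG (f * 2 ^ N) a hm0 ha ζ hζm] at hz
    exact (hEN τ hG a ha).2 ⟨hHf, (SitE_root N ζ hζ a).1 hz⟩

end Pool.Agent.DI.GL
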